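import Mathlib
import Pool.Agent.Lib.MP_ae024f_co.QuadResult

section
/-! Unions of two progressions with the same difference: the tile, rows of the plane lattice,
and the equivalence between tilings of `ℤ` and partitions of rows. -/
namespace MPae024f.TP

/-- length of an item: `p` for the first progression, `r` for the second -/
def len (p r : ℤ) (s : Bool) : ℤ := if s then p else r
/-- offset of the partner -/
def off (p r : ℤ) (s : Bool) : ℤ := if s then 0 else p - r

theorem len_add_off (p r : ℤ) (s : Bool) : len p r s + off p r s = p := by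
  cases s <;> simp [len, off]

theorem off_add_off (p r : ℤ) (s : Bool) : off p r s + off p r (!s) = p - r := by
  cases s <;> simp [off]

/-- `{0, d, …, (p-1) d} ∪ {e, e + d, …, e + (r-1) d}` -/
def Tl (p r d e : ℤ) : Set ℤ :=
  {x | (∃ i, 0 ≤ i ∧ i < p ∧ x = d * i) ∨ ∃ i, 0 ≤ i ∧ i < r ∧ x = e + d * i}

/-- `it x j s u`: in row `j` there is an item of kind `s` that starts at `x`; its partner is in the
row above if `u`, in the row below otherwise -/
structure Rows (p r d e : ℤ) (it : ℤ → ℤ → Bool → Bool → Prop) : Prop where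
  cov : ∀ x j, ∃ y s u, it y j s u ∧ y ≤ x ∧ x < y + len p r s
  uniq : ∀ x j y s u y' s' u', it y j s u → it y' j s' u' → y ≤ x → x < y + len p r s →
    y' ≤ x → x < y' + len p r s' → y = y' ∧ s = s' ∧ u = u'
  pr : ∀ x j s, it x j s true ↔ it (x - off p r s) (j + 1) (!s) false
  sh : ∀ x j s u, it (x + e) (j - d) s u ↔ it x j s u

variable {p r d e T : ℤ} {it : ℤ → ℤ → Bool → Bool → Prop}

theorem Rows.shz (h : Rows p r d e it) (i : ℤ) :
    ∀ x j s u, it (x + i * e) (j - i * d) s u ↔ it x j s u := by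
  induction i using Int.induction_on with
  | zero => intro x j s u; simp
  | succ n ih =>
    intro x j s u
    rw [show x + ((n : ℤ) + 1) * e = x + n * e + e by ring,
      show j - ((n : ℤ) + 1) * d = j - n * d - d by ring, h.sh, ih]
  | pred n ih =>
    intro x j s u
    rw [← h.sh, show x + (-(n : ℤ) - 1) * e + e = x + -(n : ℤ) * e by ring,
      show j - (-(n : ℤ) - 1) * d - d = j - -(n : ℤ) * d by ring, ih]

/-- orientation and element of the tile that cover the cell `x` of the item `(y, s, u)` -/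
def cf (p r d e : ℤ) (x y : ℤ) (s u : Bool) : Bool × ℤ :=
  (s == u, if s = true then (if u = true then d * (x - y) else d * (y + (p - 1) - x)) else
    (if u = true then e + d * (y + (r - 1) - x) else e + d * (x - y)))

theorem pq_of_rows (hd0 : 0 < d) (hde : IsCoprime d e) (h : Rows p r d e it) :
    ∃ P Q, PQ (Tl p r d e) P Q := by
  refine ⟨fun t => ∃ x j, it x j true true ∧ t = d * x + e * j,
    fun t => ∃ x j, it x j true false ∧ t = d * (x + (p - 1)) + e * j, fun n => ?_⟩
  -- a pair that covers `n` comes from an item that covers a cell above `n`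
  have hA : ∀ s : Bool × ℤ, s.2 ∈ Tl p r d e → (if s.1 = true then
      (∃ x j, it x j true true ∧ n - s.2 = d * x + e * j) else
      (∃ x j, it x j true false ∧ n + s.2 = d * (x + (p - 1)) + e * j)) →
      ∃ x j y s' u', it y j s' u' ∧ y ≤ x ∧ x < y + len p r s' ∧ n = d * x + e * j ∧
        s = cf p r d e x y s' u' := by
    rintro ⟨σ, a⟩ ha hc
    simp only at ha hc
    cases σ
    · simp only [Bool.false_eq_true, if_false] at hc
      obtain ⟨x, j, hi, hn⟩ := hc
      rcases ha with ⟨i, i0, i1, rfl⟩ | ⟨i, i0, i1, rfl⟩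
      · refine ⟨x + (p - 1) - i, j, x, true, false, hi, by omega, ?_, by linarith, ?_⟩
        · simp only [len, if_true]; omega
        · unfold cf
          simp only [if_true, Bool.false_eq_true, if_false]
          rw [show d * (x + (p - 1) - (x + (p - 1) - i)) = d * i by ring]
          rfl
      · have h1 := (h.pr (x + (p - r)) (j - 1) false).2 (by
          simp only [off, Bool.false_eq_true, if_false, Bool.not_false]
          rw [show x + (p - r) - (p - r) = x by ring, show j - 1 + 1 = j by ring]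
          exact hi)
        refine ⟨x + (p - 1) - i, j - 1, _, false, true, h1, by omega, ?_, by linarith, ?_⟩
        · simp only [len, Bool.false_eq_true, if_false]; omega
        · unfold cf
          simp only [if_true, Bool.false_eq_true, if_false]
          rw [show x + (p - r) + (r - 1) - (x + (p - 1) - i) = i by ring]
          rfl
    · simp only [if_true] at hc
      obtain ⟨x, j, hi, hn⟩ := hc
      rcases ha with ⟨i, i0, i1, rfl⟩ | ⟨i, i0, i1, rfl⟩
      · refine ⟨x + i, j, x, true, true, hi, by omega, ?_, by linarith, ?_⟩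
        · simp only [len, if_true]; omega
        · unfold cf
          simp only [if_true]
          rw [show d * (x + i - x) = d * i by ring]
          rfl
      · have h1 := (h.pr x j true).1 hi
        simp only [off, if_true, Bool.not_true, sub_zero] at h1
        refine ⟨x + i, j + 1, _, false, false, h1, by omega, ?_, by linarith, ?_⟩
        · simp only [len, Bool.false_eq_true, if_false]; omega
        · unfold cf
          simp only [Bool.false_eq_true, if_false]
          rw [show x + i - x = i by ring]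
          rfl
  -- two cells of the same integer give the same pair
  have hB : ∀ x j y s u x' j' y' s' u', it y j s u → it y' j' s' u' → y ≤ x →
      x < y + len p r s → y' ≤ x' → x' < y' + len p r s' → d * x + e * j = d * x' + e * j' →
      cf p r d e x y s u = cf p r d e x' y' s' u' := by
    intro x j y s u x' j' y' s' u' h1 h2 a1 a2 b1 b2 heq
    obtain ⟨i, hi⟩ : d ∣ j - j' := by
      have : d ∣ e * (j - j') := ⟨x' - x, by linarith⟩
      exact hde.dvd_of_dvd_mul_left this
    have hj : j' = j - i * d := by linarith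
    have hx : x' = x + i * e := by
      apply mul_left_cancel₀ (ne_of_gt hd0)
      rw [hj] at heq
      linarith
    subst hj
    subst hx
    have h3 : it (y' - i * e) j s' u' := by
      rw [← h.shz i, show y' - i * e + i * e = y' by ring]; exact h2
    obtain ⟨e1, e2, e3⟩ := h.uniq x j _ _ _ _ _ _ h1 h3 a1 a2 (by omega) (by omega)
    subst e2
    subst e3
    unfold cf
    rw [e1]
    congr 1
    split_ifs <;> ring
  -- existence
  obtain ⟨x, j, hxj⟩ : ∃ x j, n = d * x + e * j := by
    obtain ⟨u, v, huv⟩ := hde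
    exact ⟨n * u, n * v, by linear_combination (-n) * huv⟩
  obtain ⟨y, s, u, hi, a1, a2⟩ := h.cov x j
  refine ⟨cf p r d e x y s u, ⟨?_, ?_⟩, ?_⟩
  · unfold cf Tl
    cases s
    · simp only [len, Bool.false_eq_true, if_false] at a2
      right
      cases u
      · simp only [Bool.false_eq_true, if_false]
        exact ⟨_, by omega, by omega, rfl⟩
      · simp only [Bool.false_eq_true, if_false, if_true]
        exact ⟨_, by omega, by omega, rfl⟩
    · simp only [len, if_true] at a2
      left
      cases u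
      · simp only [if_true, Bool.false_eq_true, if_false]
        exact ⟨_, by omega, by omega, rfl⟩
      · simp only [if_true]
        exact ⟨_, by omega, by omega, rfl⟩
  · unfold cf
    cases s <;> cases u
    · rw [if_pos (show (false == false) = true from rfl), if_neg (by simp), if_neg (by simp)]
      have h1 := (h.pr y (j - 1) true).2 (by
        simp only [off, if_true, Bool.not_true, sub_zero]
        rw [show j - 1 + 1 = j by ring]; exact hi)
      exact ⟨y, j - 1, h1, by rw [hxj]; ring⟩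
    · rw [if_neg (show ¬ (false == true) = true by decide), if_neg (by simp), if_pos rfl]
      have h1 := (h.pr y j false).1 hi
      simp only [off, Bool.false_eq_true, if_false, Bool.not_false] at h1
      exact ⟨_, j + 1, h1, by rw [hxj]; ring⟩
    · rw [if_neg (show ¬ (true == false) = true by decide), if_pos rfl, if_neg (by simp)]
      exact ⟨y, j, hi, by rw [hxj]; ring⟩
    · rw [if_pos (show (true == true) = true from rfl), if_pos rfl, if_pos rfl]
      exact ⟨y, j, hi, by rw [hxj]; ring⟩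
  · rintro s' ⟨hs1, hs2⟩
    obtain ⟨x', j', y', s2, u2, h2, b1, b2, hp, hs⟩ := hA s' hs1 hs2
    rw [hs]
    exact (hB _ _ _ _ _ _ _ _ _ _ hi h2 a1 a2 b1 b2 (by rw [← hxj, ← hp])).symm

/-- the items given by the translation sets -/
def itm (p r d e : ℤ) (P Q : ℤ → Prop) (x j : ℤ) (s u : Bool) : Prop :=
  match s, u with
  | true, true => P (d * x + e * j)
  | true, false => Q (d * (x + (p - 1)) + e * j)
  | false, true => Q (d * (x + (r - 1)) + e * (j + 1))
  | false, false => P (d * x + e * (j - 1))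

theorem itm_pe {P Q : ℤ → Prop} (hd0 : 0 < d) (hP : ∀ i, P (i + T) ↔ P i)
    (hQ : ∀ i, Q (i + T) ↔ Q i) (x j : ℤ) (s u : Bool) :
    itm p r d e P Q (x + T) j s u ↔ itm p r d e P Q x j s u := by
  have hmul : ∀ (R : ℤ → Prop), (∀ i, R (i + T) ↔ R i) → ∀ i, R (i + d * T) ↔ R i := by
    intro R hR i
    have : ∀ n : ℕ, R (i + n * T) ↔ R i := by
      intro n
      induction n with
      | zero => simp
      | succ n ih =>
        push_cast
        rw [show i + ((n : ℤ) + 1) * T = i + n * T + T by ring, hR, ih]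
    have := this d.toNat
    rwa [show ((d.toNat : ℕ) : ℤ) = d by omega] at this
  cases s <;> cases u
  · show P _ ↔ P _
    rw [show d * (x + T) + e * (j - 1) = d * x + e * (j - 1) + d * T by ring]
    exact hmul P hP _
  · show Q _ ↔ Q _
    rw [show d * (x + T + (r - 1)) + e * (j + 1) = d * (x + (r - 1)) + e * (j + 1) + d * T by ring]
    exact hmul Q hQ _
  · show Q _ ↔ Q _
    rw [show d * (x + T + (p - 1)) + e * j = d * (x + (p - 1)) + e * j + d * T by ring]
    exact hmul Q hQ _
  · show P _ ↔ P _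
    rw [show d * (x + T) + e * j = d * x + e * j + d * T by ring]
    exact hmul P hP _

theorem rows_of_pq {P Q : ℤ → Prop} (hd0 : 0 < d)
    (he : ∀ i i', 0 ≤ i → i < p → 0 ≤ i' → i' < r → d * i ≠ e + d * i')
    (h : PQ (Tl p r d e) P Q) : Rows p r d e (itm p r d e P Q) := by
  have hcell : ∀ x j y : ℤ, ∀ s u : Bool, itm p r d e P Q y j s u → y ≤ x →
      x < y + len p r s → (cf p r d e x y s u).2 ∈ Tl p r d e ∧
        (if (cf p r d e x y s u).1 = true then P (d * x + e * j - (cf p r d e x y s u).2) else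
        Q (d * x + e * j + (cf p r d e x y s u).2)) := by
    intro x j y s u hy h1 h2
    unfold cf
    cases s <;> cases u
    · simp only [len, Bool.false_eq_true, if_false] at h2
      rw [if_neg (by simp), if_neg (by simp), if_pos (show (false == false) = true from rfl)]
      refine ⟨Or.inr ⟨_, by omega, by omega, rfl⟩, ?_⟩
      rw [show d * x + e * j - (e + d * (x - y)) = d * y + e * (j - 1) by ring]
      exact hy
    · simp only [len, Bool.false_eq_true, if_false] at h2
      rw [if_neg (by simp), if_pos rfl, if_neg (show ¬ (false == true) = true by decide)]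
      refine ⟨Or.inr ⟨_, by omega, by omega, rfl⟩, ?_⟩
      rw [show d * x + e * j + (e + d * (y + (r - 1) - x)) = d * (y + (r - 1)) + e * (j + 1) by
        ring]
      exact hy
    · simp only [len, if_true] at h2
      rw [if_pos rfl, if_neg (by simp), if_neg (show ¬ (true == false) = true by decide)]
      refine ⟨Or.inl ⟨_, by omega, by omega, rfl⟩, ?_⟩
      rw [show d * x + e * j + d * (y + (p - 1) - x) = d * (y + (p - 1)) + e * j by ring]
      exact hy
    · simp only [len, if_true] at h2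
      rw [if_pos rfl, if_pos rfl, if_pos (show (true == true) = true from rfl)]
      refine ⟨Or.inl ⟨_, by omega, by omega, rfl⟩, ?_⟩
      rw [show d * x + e * j - d * (x - y) = d * y + e * j by ring]
      exact hy
  refine ⟨?_, ?_, ?_, ?_⟩
  · intro x j
    obtain ⟨⟨σ, a⟩, ⟨ha, hc⟩, -⟩ := h (d * x + e * j)
    simp only at ha hc
    rcases ha with ⟨i, h0, h1, rfl⟩ | ⟨i, h0, h1, rfl⟩
    · cases σ
      · simp only [Bool.false_eq_true, if_false] at hc
        refine ⟨x + i - (p - 1), true, false, ?_, by omega, by simp only [len, if_true]; omega⟩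
        show Q (d * (x + i - (p - 1) + (p - 1)) + e * j)
        rwa [show d * (x + i - (p - 1) + (p - 1)) + e * j = d * x + e * j + d * i by ring]
      · simp only [if_true] at hc
        refine ⟨x - i, true, true, ?_, by omega, by simp only [len, if_true]; omega⟩
        show P (d * (x - i) + e * j)
        rwa [show d * (x - i) + e * j = d * x + e * j - d * i by ring]
    · cases σ
      · simp only [Bool.false_eq_true, if_false] at hc
        refine ⟨x + i - (r - 1), false, true, ?_, by omega, by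
          simp only [len, Bool.false_eq_true, if_false]; omega⟩
        show Q (d * (x + i - (r - 1) + (r - 1)) + e * (j + 1))
        rwa [show d * (x + i - (r - 1) + (r - 1)) + e * (j + 1) = d * x + e * j + (e + d * i) by
          ring]
      · simp only [if_true] at hc
        refine ⟨x - i, false, false, ?_, by omega, by
          simp only [len, Bool.false_eq_true, if_false]; omega⟩
        show P (d * (x - i) + e * (j - 1))
        rwa [show d * (x - i) + e * (j - 1) = d * x + e * j - (e + d * i) by ring]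
  · intro x j y s u y' s' u' hy hy' h1 h2 h3 h4
    have c1 := hcell x j y s u hy h1 h2
    have c2 := hcell x j y' s' u' hy' h3 h4
    have heq : cf p r d e x y s u = cf p r d e x y' s' u' :=
      (h (d * x + e * j)).unique c1 c2
    unfold cf at heq
    simp only [Prod.mk.injEq] at heq
    obtain ⟨e1, e2⟩ := heq
    have hd : d ≠ 0 := ne_of_gt hd0
    have hcan : ∀ a b : ℤ, d * a = d * b → a = b := fun a b => mul_left_cancel₀ hd
    cases s <;> cases u <;> cases s' <;> cases u' <;>
      simp only [len, Bool.false_eq_true, if_false, if_true] at h2 h4 e1 e2 <;>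
      first
        | (exfalso; revert e1; decide)
        | exact ⟨by have := hcan _ _ (add_left_cancel e2); omega, rfl, rfl⟩
        | exact ⟨by have := hcan _ _ e2; omega, rfl, rfl⟩
        | exact absurd e2 (he _ _ (by omega) (by omega) (by omega) (by omega))
        | exact absurd e2.symm (he _ _ (by omega) (by omega) (by omega) (by omega))
  · intro x j s
    cases s
    · show Q _ ↔ Q _
      simp only [off, Bool.false_eq_true, if_false]
      rw [show d * (x - (p - r) + (p - 1)) + e * (j + 1) = d * (x + (r - 1)) + e * (j + 1) by ring]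
    · show P _ ↔ P _
      simp only [off, if_true]
      rw [show d * (x - 0) + e * (j + 1 - 1) = d * x + e * j by ring]
  · intro x j s u
    cases s <;> cases u
    · show P _ ↔ P _
      rw [show d * (x + e) + e * (j - d - 1) = d * x + e * (j - 1) by ring]
    · show Q _ ↔ Q _
      rw [show d * (x + e + (r - 1)) + e * (j - d + 1) = d * (x + (r - 1)) + e * (j + 1) by ring]
    · show Q _ ↔ Q _
      rw [show d * (x + e + (p - 1)) + e * (j - d) = d * (x + (p - 1)) + e * j by ring]
    · show P _ ↔ P _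
      rw [show d * (x + e) + e * (j - d) = d * x + e * j by ring]

/-- a tile gives periodic rows -/
theorem exists_rows (hd0 : 0 < d) (hr : 0 ≤ r) (hp : 0 ≤ p)
    (he : ∀ i i', 0 ≤ i → i < p → 0 ≤ i' → i' < r → d * i ≠ e + d * i')
    (h : ∃ P Q, PQ (Tl p r d e) P Q) :
    ∃ it T, 0 < T ∧ Rows p r d e it ∧ ∀ x j s u, it (x + T) j s u ↔ it x j s u := by
  have hb : ∀ a ∈ Tl p r d e, -(d * p + d * r + |e|) ≤ a ∧ a ≤ d * p + d * r + |e| := by
    have he0 := neg_abs_le e
    have he1 := le_abs_self e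
    have hdp : 0 ≤ d * p := mul_nonneg hd0.le hp
    have hdr : 0 ≤ d * r := mul_nonneg hd0.le hr
    rintro a (⟨i, h0, h1, rfl⟩ | ⟨i, h0, h1, rfl⟩)
    · have h3 : 0 ≤ d * i := mul_nonneg hd0.le h0
      have h4 : d * i ≤ d * p := mul_le_mul_of_nonneg_left h1.le hd0.le
      constructor <;> linarith
    · have h3 : 0 ≤ d * i := mul_nonneg hd0.le h0
      have h4 : d * i ≤ d * r := mul_le_mul_of_nonneg_left h1.le hd0.le
      constructor <;> linarith
  obtain ⟨P, Q, T, hT, hPQ, hP, hQ⟩ := pq_periodic hb (by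
    have := abs_nonneg e
    have hdp : 0 ≤ d * p := mul_nonneg hd0.le hp
    have hdr : 0 ≤ d * r := mul_nonneg hd0.le hr
    linarith) h
  exact ⟨_, T, hT, rows_of_pq hd0 he hPQ, fun x j s u => itm_pe hd0 hP hQ x j s u⟩

end MPae024f.TP
end

section
/-! Two-row tiles: a `p`-interval and a concentric `r`-interval.  From a tiling of the plane
lattice to synchronized rows. -/
namespace MPae024f.TP

structure Hyp (p r : ℤ) : Prop where
  r1 : 1 ≤ r
  rp : r < p
  h2 : p ≠ 2 * r

variable {p r d e : ℤ} {it : ℤ → ℤ → Bool → Bool → Prop}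

theorem len_pos (hm : Hyp p r) (s : Bool) : 1 ≤ len p r s := by
  have h1 := hm.r1
  have h2 := hm.rp
  cases s <;> simp [len] <;> omega

theorem len_le (hm : Hyp p r) (s : Bool) : len p r s ≤ p := by
  have h2 := hm.rp
  cases s <;> simp [len]; omega

namespace Rows

theorem pr' (h : Rows p r d e it) (x j : ℤ) (s : Bool) :
    it x j s false ↔ it (x + off p r (!s)) (j - 1) (!s) true := by
  rw [h.pr]
  rw [show x + off p r (!s) - off p r (!s) = x by ring, show j - 1 + 1 = j by ring, Bool.not_not]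

theorem disj (h : Rows p r d e it) (hm : Hyp p r) {j y y' : ℤ} {s u s' u' : Bool}
    (h1 : it y j s u) (h2 : it y' j s' u') (h3 : y ≤ y') (h4 : y' < y + len p r s) :
    y = y' ∧ s = s' ∧ u = u' :=
  h.uniq y' j y s u y' s' u' h1 h2 h3 h4 le_rfl (by have := len_pos hm s'; omega)

theorem nxt (h : Rows p r d e it) (hm : Hyp p r) {j y : ℤ} {s u : Bool} (h1 : it y j s u) :
    ∃ s' u', it (y + len p r s) j s' u' := by
  obtain ⟨z, s', u', hz, h2, h3⟩ := h.cov (y + len p r s) j
  have hl := len_pos hm s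
  rcases lt_or_eq_of_le h2 with h4 | h4
  · exfalso
    rcases le_or_gt y z with h5 | h5
    · obtain ⟨h6, h7, -⟩ := h.disj hm h1 hz h5 h4
      rw [← h6, ← h7] at h3; omega
    · have := h.disj hm hz h1 h5.le (by omega)
      omega
  · exact ⟨s', u', by rw [← h4]; exact hz⟩

theorem prv (h : Rows p r d e it) (hm : Hyp p r) {j y : ℤ} {s u : Bool} (h1 : it y j s u) :
    ∃ s' u', it (y - len p r s') j s' u' := by
  obtain ⟨z, s', u', hz, h2, h3⟩ := h.cov (y - 1) j
  rcases lt_or_ge y (z + len p r s') with h4 | h4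
  · exfalso
    have := h.disj hm hz h1 (by omega) h4
    omega
  · exact ⟨s', u', by rw [show y - len p r s' = z by omega]; exact hz⟩

/-- short items of the same direction are at distance at least `p` -/
theorem sdist (h : Rows p r d e it) (hm : Hyp p r) {j x y : ℤ} {u : Bool} (h1 : it x j false u)
    (h2 : it y j false u) (h3 : x < y) (h4 : y < x + p) : False := by
  cases u
  · rw [h.pr'] at h1 h2
    simp only [Bool.not_false] at h1 h2
    have := h.disj hm h1 h2 (by omega) (by simp only [len, if_true]; omega)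
    omega
  · rw [h.pr] at h1 h2
    simp only [Bool.not_false] at h1 h2
    have := h.disj hm h1 h2 (by omega) (by simp only [len, if_true]; omega)
    omega

/-- two short items of the same direction are never at distance exactly `p` -/
theorem gap (h : Rows p r d e it) (hm : Hyp p r) {j x : ℤ} {u : Bool} (h1 : it x j false u)
    (h2 : it (x + p) j false u) : False := by
  have a1 := hm.r1
  have a2 := hm.rp
  have a3 := hm.h2
  -- the item that follows a short item starting before `x + p`
  have key : ∀ y w, it y j false w → x ≤ y → y < x + p → y + r < x + p →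
      ∃ w', it (y + r) j false w' := by
    intro y w hy b1 b2 b3
    obtain ⟨s, w', hw'⟩ := h.nxt hm hy
    simp only [len, Bool.false_eq_true, if_false] at hw'
    cases s
    · exact ⟨w', hw'⟩
    · exfalso
      have := h.disj hm hw' h2 (by omega) (by simp only [len, if_true]; omega)
      simp at this
  obtain ⟨w1, hw1⟩ := key x u h1 le_rfl (by omega) (by omega)
  -- the second gap item
  have c2 : x + r + r < x + p := by
    rcases lt_trichotomy (x + r + r) (x + p) with h3 | h3 | h3
    · exact h3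
    · omega
    · exfalso
      have := h.disj hm hw1 h2 (by omega) (by simp [len]; omega)
      omega
  obtain ⟨w2, hw2⟩ := key (x + r) w1 hw1 (by omega) (by omega) c2
  by_cases hu1 : w1 = u
  · rw [hu1] at hw1
    exact h.sdist hm h1 hw1 (by omega) (by omega)
  · by_cases hu2 : w2 = u
    · rw [hu2] at hw2
      exact h.sdist hm h1 hw2 (by omega) (by omega)
    · have : w1 = w2 := by cases w1 <;> cases w2 <;> cases u <;> simp_all
      rw [this] at hw1
      exact h.sdist hm hw1 hw2 (by omega) (by omega)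

theorem bb (h : Rows p r d e it) (hm : Hyp p r) {j x : ℤ} {u : Bool} (h1 : it x j true u)
    (h2 : it (x + p) j true u) : False := by
  cases u
  · rw [h.pr'] at h1 h2
    simp only [Bool.not_true] at h1 h2
    rw [show x + p + off p r false = x + off p r false + p by ring] at h2
    exact h.gap hm h1 h2
  · rw [h.pr] at h1 h2
    simp only [Bool.not_true] at h1 h2
    rw [show x + p - off p r true = x - off p r true + p by ring] at h2
    exact h.gap hm h1 h2

/-- adjacent items of the same direction are of different kinds -/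
theorem altern (h : Rows p r d e it) (hm : Hyp p r) {j x : ℤ} {s s' u : Bool} (h1 : it x j s u)
    (h2 : it (x + len p r s) j s' u) : s' = !s := by
  have a1 := hm.r1
  have a2 := hm.rp
  cases s <;> cases s'
  · exact (h.sdist hm h1 h2 (by simp [len]; omega) (by simp [len]; omega)).elim
  · rfl
  · rfl
  · simp only [len, if_true] at h2
    exact (h.bb hm h1 h2).elim

theorem down_up (h : Rows p r d e it) (hm : Hyp p r) {j : ℤ}
    (hA : ∀ x s u, it x j s u → u = false) : ∀ x s u, it x (j - 1) s u → u = true := by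
  have a1 := hm.r1
  have a2 := hm.rp
  intro y s' u' hy
  obtain ⟨z, s, u, hz, h1, h2⟩ := h.cov (y + r) j
  obtain rfl := hA _ _ _ hz
  cases s
  · simp only [len, Bool.false_eq_true, if_false] at h2
    obtain ⟨s2, u2, hw⟩ := h.prv hm hz
    obtain rfl := hA _ _ _ hw
    have hz' : it (z - len p r s2 + len p r s2) j false false := by
      rw [show z - len p r s2 + len p r s2 = z by ring]; exact hz
    have hs := h.altern hm hw hz'
    have hs2 : s2 = true := by
      cases s2
      · simp at hs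
      · rfl
    rw [hs2] at hw
    rw [h.pr'] at hw
    have h3 : z - len p r true + off p r (!true) = z - r := by
      simp only [len, off, Bool.not_true, Bool.false_eq_true, if_false, if_true]
      omega
    rw [h3] at hw
    exact (h.disj hm hw hy (by omega) (by simp [len]; omega)).2.2.symm
  · simp only [len, if_true] at h2
    obtain ⟨s2, u2, hw⟩ := h.prv hm hz
    obtain rfl := hA _ _ _ hw
    have hz' : it (z - len p r s2 + len p r s2) j true false := by
      rw [show z - len p r s2 + len p r s2 = z by ring]; exact hz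
    have hs := h.altern hm hw hz'
    have hs2 : s2 = false := by
      cases s2
      · rfl
      · simp at hs
    rw [hs2] at hw
    rw [h.pr'] at hw
    have h3 : z - len p r false + off p r (!false) = z - r := by
      simp only [len, off, Bool.not_false, Bool.false_eq_true, if_false, if_true]
      omega
    rw [h3] at hw
    exact (h.disj hm hw hy (by omega) (by simp only [Bool.not_false, len, if_true]; omega)).2.2.symm

theorem up_down (h : Rows p r d e it) {j : ℤ}
    (hA : ∀ x s u, it x j s u → u = true) : ∀ x s u, it x (j - 1) s u → u = false := by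
  intro y s u hy
  cases u
  · rfl
  · rw [h.pr, show j - 1 + 1 = j by ring] at hy
    exact absurd (hA _ _ _ hy) (by simp)

theorem allb (h : Rows p r d e it) (hm : Hyp p r) (b : Bool) {j : ℤ}
    (hA : ∀ x s u, it x j s u → u = b) : ∀ x s u, it x (j - 1) s u → u = !b := by
  cases b
  · exact h.down_up hm hA
  · exact h.up_down hA

theorem allb2 (h : Rows p r d e it) (hm : Hyp p r) (b : Bool) {j : ℤ}
    (hA : ∀ x s u, it x j s u → u = b) (n : ℕ) : ∀ x s u, it x (j - 2 * n) s u → u = b := by
  induction n with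
  | zero => simpa using hA
  | succ n ih =>
    have h1 := h.allb hm (!b) (h.allb hm b ih)
    rw [Bool.not_not] at h1
    push_cast
    rw [show j - 2 * ((n : ℤ) + 1) = j - 2 * n - 1 - 1 by ring]
    exact h1

/-- every row has items of both directions -/
theorem mixed (h : Rows p r d e it) (hm : Hyp p r) (hd : d % 2 = 1) (hd0 : 0 < d) (b : Bool)
    (j : ℤ) : ∃ x s, it x j s b := by
  by_contra hcon
  have hA : ∀ x s u, it x j s u → u = !b := by
    intro x s u hx
    by_contra hu
    apply hcon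
    refine ⟨x, s, ?_⟩
    have : u = b := by cases u <;> cases b <;> simp_all
    rwa [this] at hx
  have h1 := h.allb hm _ (h.allb2 hm _ hA (d / 2).toNat)
  rw [show j - 2 * (((d / 2).toNat : ℕ) : ℤ) - 1 = j - d by omega, Bool.not_not] at h1
  obtain ⟨y, s, u, hy, -, -⟩ := h.cov 0 j
  have h2 := hA _ _ _ hy
  have h3 := h1 _ _ _ ((h.sh _ _ _ _).2 hy)
  rw [h2] at h3
  cases b <;> simp at h3

/-- enumeration of a row -/
theorem enum (h : Rows p r d e it) (hm : Hyp p r) (j : ℤ) :
    ∃ (X : ℤ → ℤ) (S U : ℤ → Bool), (∀ N, it (X N) j (S N) (U N)) ∧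
      (∀ N, X (N + 1) = X N + len p r (S N)) := by
  classical
  let V := {v : ℤ × Bool × Bool // it v.1 j v.2.1 v.2.2}
  have hn : ∀ v : V, ∃ w : V, w.1.1 = v.1.1 + len p r v.1.2.1 := by
    rintro ⟨⟨y, s, u⟩, hv⟩
    obtain ⟨s', u', h'⟩ := h.nxt hm hv
    exact ⟨⟨(_, s', u'), h'⟩, rfl⟩
  have hp : ∀ v : V, ∃ w : V, v.1.1 = w.1.1 + len p r w.1.2.1 := by
    rintro ⟨⟨y, s, u⟩, hv⟩
    obtain ⟨s', u', h'⟩ := h.prv hm hv
    exact ⟨⟨(_, s', u'), h'⟩, by simp⟩
  have hstart : ∀ v w : V, v.1.1 = w.1.1 → v = w := by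
    rintro ⟨⟨y, s, u⟩, hv⟩ ⟨⟨y', s', u'⟩, hw⟩ (rfl : y = y')
    obtain ⟨-, h1, h2⟩ := h.disj hm hv hw le_rfl (by
      show y < y + len p r s
      have := len_pos hm s
      omega)
    have h1' : s = s' := h1
    have h2' : u = u' := h2
    subst h1' h2'
    rfl
  have hend : ∀ v w : V, v.1.1 + len p r v.1.2.1 = w.1.1 + len p r w.1.2.1 → v = w := by
    intro v w hvw
    have h1 := len_pos hm v.1.2.1
    have h2 := len_pos hm w.1.2.1
    apply hstart
    exact (h.uniq (v.1.1 + len p r v.1.2.1 - 1) j _ _ _ _ _ _ v.2 w.2 (by omega) (by omega)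
      (by omega) (by omega)).1
  choose nx hnx using hn
  choose pv hpv using hp
  let E : Equiv.Perm V := ⟨nx, pv, fun v => hend _ _ (by rw [← hpv, hnx]), fun v => hstart _ _ (by
    rw [hnx, ← hpv])⟩
  obtain ⟨y, s, u, hy, -, -⟩ := h.cov 0 j
  let v0 : V := ⟨(y, s, u), hy⟩
  refine ⟨fun N => ((E ^ N) v0).1.1, fun N => ((E ^ N) v0).1.2.1, fun N => ((E ^ N) v0).1.2.2,
    fun N => ((E ^ N) v0).2, fun N => ?_⟩
  have : (E ^ (N + 1)) v0 = nx ((E ^ N) v0) := by
    rw [add_comm, zpow_add, zpow_one]; rfl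
  simp only [this]
  exact hnx _

end Rows

/-- a row given by its consecutive items -/
structure Seq (p r : ℤ) (itj : ℤ → Bool → Bool → Prop) (X : ℤ → ℤ) (S U : ℤ → Bool) : Prop where
  mem : ∀ N, itj (X N) (S N) (U N)
  nx : ∀ N, X (N + 1) = X N + len p r (S N)

namespace Seq

variable {X : ℤ → ℤ} {S U : ℤ → Bool} {j : ℤ}

theorem lin (hm : Hyp p r) (q : Seq p r (fun x => it x j) X S U) {N M : ℤ} (hNM : N ≤ M) :
    X N + (M - N) ≤ X M := by
  induction M, hNM using Int.leInduction with
  | base => simp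
  | succ M _ ih =>
    rw [q.nx]
    have := len_pos hm (S M)
    omega

theorem lt (hm : Hyp p r) (q : Seq p r (fun x => it x j) X S U) {N M : ℤ} (hNM : N < M) :
    X N + len p r (S N) ≤ X M := by
  have := q.lin hm (show N + 1 ≤ M by omega)
  rw [q.nx] at this
  omega

theorem inj (hm : Hyp p r) (q : Seq p r (fun x => it x j) X S U) {N M : ℤ} (hX : X N = X M) :
    N = M := by
  rcases lt_trichotomy N M with h | h | h
  · have := q.lin hm h.le; omega
  · exact h
  · have := q.lin hm h.le; omega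

theorem surj (h : Rows p r d e it) (hm : Hyp p r) (q : Seq p r (fun x => it x j) X S U) {y : ℤ}
    {s u : Bool} (hy : it y j s u) : ∃ N, X N = y ∧ S N = s ∧ U N = u := by
  obtain ⟨N, h1, h2⟩ := Int.exists_greatest_of_bdd (P := fun N => X N ≤ y)
    ⟨max 0 (y - X 0), fun z hz => by
      rcases le_or_gt z 0 with h3 | h3
      · exact h3.trans (le_max_left _ _)
      · have := q.lin hm h3.le
        exact le_trans (by omega) (le_max_right _ _)⟩
    ⟨min 0 (y - X 0), by
      have := q.lin hm (min_le_left 0 (y - X 0))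
      have h4 := min_le_right 0 (y - X 0)
      show X _ ≤ y
      omega⟩
  have h3 : y < X N + len p r (S N) := by
    rw [← q.nx]
    by_contra hcon
    have := h2 (N + 1) (by omega)
    omega
  exact ⟨N, h.disj hm (q.mem N) hy h1 h3⟩

theorem at_eq (h : Rows p r d e it) (hm : Hyp p r) (q : Seq p r (fun x => it x j) X S U) {N : ℤ}
    {s u : Bool} (hy : it (X N) j s u) : S N = s ∧ U N = u :=
  (h.disj hm (q.mem N) hy le_rfl (by have := len_pos hm (S N); omega)).2

/-- two enumerations of the same row coincide after a shift of the index -/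
theorem coincide (h : Rows p r d e it) (hm : Hyp p r) (q : Seq p r (fun x => it x j) X S U)
    {X' : ℤ → ℤ} {S' U' : ℤ → Bool} (q' : Seq p r (fun x => it x j) X' S' U') {a : ℤ}
    (h0 : X a = X' 0) : ∀ N, X (N + a) = X' N ∧ S (N + a) = S' N ∧ U (N + a) = U' N := by
  have key : ∀ N, X (N + a) = X' N → X (N + a) = X' N ∧ S (N + a) = S' N ∧ U (N + a) = U' N := by
    intro N hN
    have := q.at_eq h hm (N := N + a) (s := S' N) (u := U' N) (by rw [hN]; exact q'.mem N)
    exact ⟨hN, this⟩
  intro N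
  induction N using Int.induction_on with
  | zero => exact key 0 (by rw [zero_add]; exact h0)
  | succ n ih =>
    apply key
    rw [show (n : ℤ) + 1 + a = n + a + 1 by ring, q.nx, q'.nx, ih.1, ih.2.1]
  | pred n ih =>
    apply key
    -- both items end at the same place
    have h1 := q.nx (-(n : ℤ) - 1 + a)
    have h2 := q'.nx (-(n : ℤ) - 1)
    rw [show -(n : ℤ) - 1 + a + 1 = -n + a by ring, ih.1] at h1
    rw [show -(n : ℤ) - 1 + 1 = -n by ring] at h2
    have h3 := len_pos hm (S (-(n : ℤ) - 1 + a))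
    have h4 := len_pos hm (S' (-(n : ℤ) - 1))
    exact (h.uniq (X' (-n) - 1) j _ _ _ _ _ _ (q.mem (-(n : ℤ) - 1 + a)) (q'.mem (-(n : ℤ) - 1))
      (by omega) (by omega) (by omega) (by omega)).1

end Seq

end MPae024f.TP
end

section
/-! Adjacent rows are synchronized. -/
namespace MPae024f.TP

theorem exists_sum (g : ℤ → ℤ) : ∃ O : ℤ → ℤ, ∀ j, O (j + 1) = O j + g j := by
  refine ⟨fun j => ∑ i ∈ Finset.Ico 0 j, g i - ∑ i ∈ Finset.Ico j 0, g i, fun j => ?_⟩
  rcases le_or_gt 0 j with h | h
  · have h1 : Finset.Ico (j + 1) 0 = ∅ := Finset.Ico_eq_empty_of_le (by omega)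
    have h2 : Finset.Ico j 0 = ∅ := Finset.Ico_eq_empty_of_le h
    have h3 : Finset.Ico 0 (j + 1) = insert j (Finset.Ico 0 j) := by
      ext x; simp only [Finset.mem_Ico, Finset.mem_insert]; omega
    simp only [h1, h2, h3, Finset.sum_empty, sub_zero]
    rw [Finset.sum_insert (by simp)]; ring
  · have h1 : Finset.Ico 0 (j + 1) = ∅ := Finset.Ico_eq_empty_of_le (by omega)
    have h2 : Finset.Ico 0 j = ∅ := Finset.Ico_eq_empty_of_le h.le
    have h3 : Finset.Ico j 0 = insert j (Finset.Ico (j + 1) 0) := by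
      ext x; simp only [Finset.mem_Ico, Finset.mem_insert]; omega
    simp only [h1, h2, Finset.sum_empty, zero_sub]
    rw [h3, Finset.sum_insert (by simp)]; ring

variable {p r d e : ℤ} {it : ℤ → ℤ → Bool → Bool → Prop}

def EE (p r : ℤ) (X : ℤ → ℤ) (N : ℤ) : ℤ := 2 * X N - (p + r) * N
def lev (p r : ℤ) (X : ℤ → ℤ) (S : ℤ → Bool) (N : ℤ) : ℤ := EE p r X N - off p r (S N)

theorem off_bd (hm : Hyp p r) (s : Bool) : 0 ≤ off p r s ∧ off p r s ≤ p - r := by
  have := hm.rp
  cases s <;> simp [off] <;> omega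

namespace Seq

variable {X : ℤ → ℤ} {S U : ℤ → Bool} {j : ℤ}

theorem EE_succ (q : Seq p r (fun x => it x j) X S U) (N : ℤ) :
    EE p r X (N + 1) = EE p r X N + (p - r) - 2 * off p r (S N) := by
  unfold EE
  rw [q.nx]
  have := len_add_off p r (S N)
  linarith

theorem EE_two (h : Rows p r d e it) (hm : Hyp p r) (q : Seq p r (fun x => it x j) X S U) {N : ℤ}
    (hU : U (N + 1) = U N) : EE p r X (N + 2) = EE p r X N := by
  have h1 := q.mem N
  have h2 := q.mem (N + 1)
  rw [q.nx, hU] at h2
  have h3 := h.altern hm h1 h2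
  have h4 := q.EE_succ N
  have h5 := q.EE_succ (N + 1)
  rw [h3, show N + 1 + 1 = N + 2 by ring] at h5
  have h6 := off_add_off p r (S N)
  linarith

theorem run (h : Rows p r d e it) (hm : Hyp p r) (q : Seq p r (fun x => it x j) X S U) (N : ℤ)
    (b : Bool) (n : ℕ) (hr : ∀ i : ℕ, i < n → U (N + i) = b) :
    EE p r X (N + n) = EE p r X N ∨ EE p r X (N + n) = EE p r X (N + 1) := by
  induction n using Nat.strong_induction_on with
  | _ n ih =>
    rcases n with _ | _ | n
    · left; simp
    · right; simp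
    · have h1 := hr n (by omega)
      have h2 := hr (n + 1) (by omega)
      push_cast at h2
      have h3 := q.EE_two h hm (N := N + n) (by
        rw [show N + (n : ℤ) + 1 = N + (n + 1) by ring, h1, h2])
      have h4 := ih n (by omega) (fun i hi => hr i (by omega))
      push_cast
      rw [show N + ((n : ℤ) + 1 + 1) = N + n + 2 by ring, h3]
      exact h4

theorem lev_bd (h : Rows p r d e it) (hm : Hyp p r) (q : Seq p r (fun x => it x j) X S U)
    {N₁ N₂ : ℤ} (b : Bool) (hlt : N₁ < N₂) (hr : ∀ M, N₁ < M → M < N₂ → U M = b) :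
    -(2 * (p - r)) ≤ lev p r X S N₂ - lev p r X S N₁ ∧
      lev p r X S N₂ - lev p r X S N₁ ≤ 2 * (p - r) := by
  have h1 := q.run h hm (N₁ + 1) b (N₂ - N₁ - 1).toNat (fun i hi => hr _ (by omega) (by omega))
  rw [show N₁ + 1 + (((N₂ - N₁ - 1).toNat : ℕ) : ℤ) = N₂ by omega] at h1
  have h2 := q.EE_succ N₁
  have h3 := q.EE_succ (N₁ + 1)
  have h4 := off_bd hm (S N₁)
  have h5 := off_bd hm (S (N₁ + 1))
  have h6 := off_bd hm (S N₂)
  unfold lev
  rcases h1 with h1 | h1 <;> constructor <;> omega

/-- `EE` changes by `± (p - r)` in each step -/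
theorem stp (q : Seq p r (fun x => it x j) X S U) (N : ℤ) :
    ∃ t, EE p r X N - EE p r X 0 = (p - r) * t ∧ (t - N) % 2 = 0 := by
  have key : ∀ M, ∃ t, EE p r X (M + 1) - EE p r X M = (p - r) * t ∧ (t - 1) % 2 = 0 := by
    intro M
    have := q.EE_succ M
    rw [this]
    cases S M
    · exact ⟨-1, by simp only [off, Bool.false_eq_true, if_false]; ring, by norm_num⟩
    · exact ⟨1, by simp only [off, if_true]; ring, by norm_num⟩
  induction N using Int.induction_on with
  | zero => exact ⟨0, by ring, by norm_num⟩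
  | succ n ih =>
    obtain ⟨t, h1, h2⟩ := ih
    obtain ⟨t', h3, h4⟩ := key n
    exact ⟨t + t', by rw [mul_add, ← h1, ← h3]; ring, by omega⟩
  | pred n ih =>
    obtain ⟨t, h1, h2⟩ := ih
    obtain ⟨t', h3, h4⟩ := key (-(n : ℤ) - 1)
    rw [show -(n : ℤ) - 1 + 1 = -n by ring] at h3
    exact ⟨t - t', by rw [mul_sub, ← h1, ← h3]; ring, by omega⟩

end Seq

/-- `N` (an up item of row `j`) is matched with `N'` (a down item of row `j+1`) -/
def RR (p r : ℤ) (X X' : ℤ → ℤ) (S S' U U' : ℤ → Bool) (N N' : ℤ) : Prop :=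
  U N = true ∧ U' N' = false ∧ X' N' = X N - off p r (S N) ∧ S' N' = !S N

section link

variable {X X' : ℤ → ℤ} {S S' U U' : ℤ → Bool} {j : ℤ}

theorem partner_up (h : Rows p r d e it) (hm : Hyp p r) (q : Seq p r (fun x => it x j) X S U)
    (q' : Seq p r (fun x => it x (j + 1)) X' S' U') {N : ℤ} (hN : U N = true) :
    ∃ N', RR p r X X' S S' U U' N N' := by
  have h1 := q.mem N
  rw [hN, h.pr] at h1
  obtain ⟨N', a, b, c⟩ := q'.surj h hm h1
  exact ⟨N', hN, c, a, b⟩

theorem partner_down (h : Rows p r d e it) (hm : Hyp p r) (q : Seq p r (fun x => it x j) X S U)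
    (q' : Seq p r (fun x => it x (j + 1)) X' S' U') {N' : ℤ} (hN : U' N' = false) :
    ∃ N, RR p r X X' S S' U U' N N' := by
  have h1 := q'.mem N'
  rw [hN, h.pr', show j + 1 - 1 = j by ring] at h1
  obtain ⟨N, a, b, c⟩ := q.surj h hm h1
  refine ⟨N, c, hN, ?_, ?_⟩
  · rw [b, a]; ring
  · rw [b, Bool.not_not]

theorem RR.order (hm : Hyp p r) (q : Seq p r (fun x => it x j) X S U)
    (q' : Seq p r (fun x => it x (j + 1)) X' S' U') {N₁ N₁' N₂ N₂' : ℤ}
    (r1 : RR p r X X' S S' U U' N₁ N₁') (r2 : RR p r X X' S S' U U' N₂ N₂') (hlt : N₁ < N₂) :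
    N₁' < N₂' := by
  by_contra hcon
  have h1 := q'.lin hm (show N₂' ≤ N₁' by omega)
  have h2 := q.lt hm hlt
  have h3 := r1.2.2.1
  have h4 := r2.2.2.1
  have h5 := len_add_off p r (S N₁)
  have h6 := off_bd hm (S N₂)
  have h7 := hm.r1
  omega

theorem RR.lev {N N' : ℤ} (z : RR p r X X' S S' U U' N N') :
    (p + r) * (N' - N) = lev p r X S N - lev p r X' S' N' - (p - r) := by
  unfold MPae024f.TP.lev EE
  rw [z.2.2.1, z.2.2.2]
  have := off_add_off p r (S N)
  linarith

theorem RR.par {N N' : ℤ} (z : RR p r X X' S S' U U' N N') :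
    off p r (S' N') = p - r - off p r (S N) := by
  rw [z.2.2.2]
  have := off_add_off p r (S N)
  omega

/-- the only arithmetic fact: `(p + r) w = (p - r) t` is impossible -/
theorem arith (hm : Hyp p r) (a4 : p ≠ 3 * r) {w t : ℤ} (h : (p + r) * w = (p - r) * t) (h1 : -4 ≤ t) (h2 : t ≤ 4)
    (h3 : (t - w) % 2 = 0) : w = 0 := by
  have a1 := hm.r1
  have a2 := hm.rp
  have a3 := hm.h2
  by_contra hw
  have b1 : -3 ≤ w := by
    by_contra hc
    nlinarith
  have b2 : w ≤ 3 := by
    by_contra hc
    nlinarith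
  interval_cases t <;> interval_cases w <;> omega

theorem link (h : Rows p r d e it) (hm : Hyp p r) (hm3 : p ≠ 3 * r) (q : Seq p r (fun x => it x j) X S U)
    (q' : Seq p r (fun x => it x (j + 1)) X' S' U') : ∀ n : ℕ, ∀ N₁ N₁' N₂ N₂' : ℤ,
    RR p r X X' S S' U U' N₁ N₁' → RR p r X X' S S' U U' N₂ N₂' → N₁ < N₂ → N₂ - N₁ = n →
    N₂' - N₂ = N₁' - N₁ := by
  intro n
  induction n using Nat.strong_induction_on with
  | _ n ih =>
    intro N₁ N₁' N₂ N₂' r1 r2 hlt hn
    by_cases hmid : ∃ M, N₁ < M ∧ M < N₂ ∧ U M = true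
    · obtain ⟨M, h1, h2, h3⟩ := hmid
      obtain ⟨M', r3⟩ := partner_up h hm q q' h3
      have e1 := ih (M - N₁).toNat (by omega) N₁ N₁' M M' r1 r3 h1 (by omega)
      have e2 := ih (N₂ - M).toNat (by omega) M M' N₂ N₂' r3 r2 h2 (by omega)
      omega
    · have c1 : ∀ M, N₁ < M → M < N₂ → U M = false := by
        intro M h1 h2
        by_contra h3
        exact hmid ⟨M, h1, h2, by simpa using h3⟩
      have c2 : ∀ M', N₁' < M' → M' < N₂' → U' M' = true := by
        intro M' h1 h2
        by_contra h3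
        obtain ⟨M, r3⟩ := partner_down h hm q q' (N' := M') (by simpa using h3)
        apply hmid
        refine ⟨M, ?_, ?_, r3.1⟩
        · rcases lt_trichotomy N₁ M with h4 | h4 | h4
          · exact h4
          · exfalso
            rw [← h4] at r3
            have := q'.inj hm (r1.2.2.1.trans r3.2.2.1.symm)
            omega
          · have := r3.order hm q q' r1 h4
            omega
        · rcases lt_trichotomy M N₂ with h4 | h4 | h4
          · exact h4
          · exfalso
            rw [h4] at r3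
            have := q'.inj hm (r2.2.2.1.trans r3.2.2.1.symm)
            omega
          · have := r2.order hm q q' r3 h4
            omega
      have b1 := q.lev_bd h hm false hlt c1
      have b2 := q'.lev_bd h hm true (r1.order hm q q' r2 hlt) c2
      have l1 := r1.lev
      have l2 := r2.lev
      have d1 := r1.par
      have d2 := r2.par
      obtain ⟨t1, f1, g1⟩ := q.stp N₁
      obtain ⟨t2, f2, g2⟩ := q.stp N₂
      obtain ⟨t3, f3, g3⟩ := q'.stp N₁'
      obtain ⟨t4, f4, g4⟩ := q'.stp N₂'
      obtain ⟨s1, k1, k2⟩ : ∃ s1, off p r (S N₁) = (p - r) * s1 ∧ True := by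
        cases S N₁
        · exact ⟨1, by simp [off], trivial⟩
        · exact ⟨0, by simp [off], trivial⟩
      obtain ⟨s2, k3, k4⟩ : ∃ s2, off p r (S N₂) = (p - r) * s2 ∧ True := by
        cases S N₂
        · exact ⟨1, by simp [off], trivial⟩
        · exact ⟨0, by simp [off], trivial⟩
      have hpr : 0 < p - r := by have := hm.rp; omega
      set w := (N₂' - N₂) - (N₁' - N₁) with hw
      have e1 : (p + r) * w = (lev p r X S N₂ - lev p r X S N₁) -
          (lev p r X' S' N₂' - lev p r X' S' N₁') := by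
        rw [hw]; linarith
      have e2 : (p + r) * w = (p - r) * ((t2 - t1) - (t4 - t3) - 2 * s2 + 2 * s1) := by
        rw [e1]
        unfold lev
        rw [d1, d2, k1, k3]
        linarith
      have e3 : w = 0 := by
        apply arith hm hm3 e2
        · by_contra hc
          have : (p - r) * ((t2 - t1) - (t4 - t3) - 2 * s2 + 2 * s1) ≤ (p - r) * (-5) :=
            mul_le_mul_of_nonneg_left (by omega) hpr.le
          linarith [b1.1, b1.2, b2.1, b2.2]
        · by_contra hc
          have : (p - r) * 5 ≤ (p - r) * ((t2 - t1) - (t4 - t3) - 2 * s2 + 2 * s1) :=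
            mul_le_mul_of_nonneg_left (by omega) hpr.le
          linarith [b1.1, b1.2, b2.1, b2.2]
        · omega
      omega

end link

end MPae024f.TP
end

section
/-! Construction of the `Sync` structure and the arithmetic conclusion. -/
namespace MPae024f.TP

variable {p r d e T : ℤ} {it : ℤ → ℤ → Bool → Bool → Prop}

/-- all rows, with synchronized indices -/
structure Syn (p r : ℤ) (it : ℤ → ℤ → Bool → Bool → Prop) (X : ℤ → ℤ → ℤ) (S U : ℤ → ℤ → Bool) :
    Prop where
  q : ∀ j, Seq p r (fun x => it x j) (X j) (S j) (U j)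
  up : ∀ j N, U j N = true → X (j + 1) N = X j N - off p r (S j N) ∧ S (j + 1) N = !S j N ∧
    U (j + 1) N = false
  dn : ∀ j N, U (j + 1) N = false → U j N = true

theorem exists_syn (h : Rows p r d e it) (hm : Hyp p r) (hm3 : p ≠ 3 * r) (hd : d % 2 = 1) (hd0 : 0 < d) :
    ∃ X S U, Syn p r it X S U := by
  choose X0 S0 U0 h1 h2 using h.enum hm
  have q0 : ∀ j, Seq p r (fun x => it x j) (X0 j) (S0 j) (U0 j) := fun j => ⟨h1 j, h2 j⟩
  have hF : ∀ j, ∃ F : ℤ, ∀ N N', RR p r (X0 j) (X0 (j + 1)) (S0 j) (S0 (j + 1)) (U0 j)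
      (U0 (j + 1)) N N' → N' - N = F := by
    intro j
    obtain ⟨x, s, hx⟩ := h.mixed hm hd hd0 true j
    obtain ⟨N₀, -, -, hN₀⟩ := (q0 j).surj h hm hx
    obtain ⟨N₀', r0⟩ := partner_up h hm (q0 j) (q0 (j + 1)) hN₀
    refine ⟨N₀' - N₀, fun N N' r => ?_⟩
    rcases lt_trichotomy N₀ N with h3 | h3 | h3
    · exact link h hm hm3 (q0 j) (q0 (j + 1)) (N - N₀).toNat _ _ _ _ r0 r h3 (by omega)
    · rw [← h3] at r ⊢
      have := (q0 (j + 1)).inj hm (r.2.2.1.trans r0.2.2.1.symm)
      rw [this]
    · exact (link h hm hm3 (q0 j) (q0 (j + 1)) (N₀ - N).toNat _ _ _ _ r r0 h3 (by omega)).symm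
  choose F hF using hF
  obtain ⟨O, hO⟩ := exists_sum F
  refine ⟨fun j N => X0 j (N + O j), fun j N => S0 j (N + O j), fun j N => U0 j (N + O j),
    ⟨fun j => ⟨fun N => h1 j (N + O j), fun N => ?_⟩, fun j N hU => ?_, fun j N hU => ?_⟩⟩
  · show X0 j (N + 1 + O j) = _
    rw [show N + 1 + O j = N + O j + 1 by ring, h2]
  · obtain ⟨N', r⟩ := partner_up h hm (q0 j) (q0 (j + 1)) (N := N + O j) hU
    have h3 := hF j _ _ r
    have h4 : N' = N + O (j + 1) := by rw [hO]; omega
    rw [h4] at r
    exact ⟨r.2.2.1, r.2.2.2, r.2.1⟩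
  · obtain ⟨N', r⟩ := partner_down h hm (q0 j) (q0 (j + 1)) (N' := N + O (j + 1)) hU
    have h3 := hF j _ _ r
    have h4 : N' = N + O j := by rw [hO] at h3; omega
    rw [h4] at r
    exact r.1

variable {X : ℤ → ℤ → ℤ} {S U : ℤ → ℤ → Bool}

/-- positions in a row, in units of `p - r` -/
theorem Seq.dvd {X : ℤ → ℤ} {S U : ℤ → Bool} {j : ℤ} (q : Seq p r (fun x => it x j) X S U)
    (N : ℤ) : (p - r) ∣ X N - X 0 - r * N := by
  have key : ∀ M, (p - r) ∣ X (M + 1) - X M - r := by
    intro M
    rw [q.nx]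
    cases S M
    · exact ⟨0, by simp [len]⟩
    · exact ⟨1, by simp [len]⟩
  induction N using Int.induction_on with
  | zero => exact ⟨0, by ring⟩
  | succ n ih =>
    have := dvd_add ih (key n)
    rw [show X (n + 1) - X 0 - r * ((n : ℤ) + 1) = X n - X 0 - r * n + (X (n + 1) - X n - r) by ring]
    exact this
  | pred n ih =>
    have h1 := key (-(n : ℤ) - 1)
    rw [show -(n : ℤ) - 1 + 1 = -n by ring] at h1
    have := dvd_sub ih h1
    rw [show X (-(n : ℤ) - 1) - X 0 - r * (-(n : ℤ) - 1) = X (-n) - X 0 - r * -n -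
      (X (-n) - X (-(n : ℤ) - 1) - r) by ring]
    exact this

namespace Syn

theorem alt (y : Syn p r it X S U) (j N : ℤ) : U (j + 1) N = !U j N := by
  have h1 := y.up j N
  have h2 := y.dn j N
  cases h3 : U j N
  · cases h4 : U (j + 1) N
    · have := h2 h4; simp_all
    · rfl
  · rw [(h1 h3).2.2]; rfl

/-- a symmetry of the rows shifts the indices by a constant -/
theorem shift (h : Rows p r d e it) (hm : Hyp p r) (hd : d % 2 = 1) (hd0 : 0 < d)
    (y : Syn p r it X S U) (e' d' : ℤ) (hs : ∀ x j s u, it (x + e') (j - d') s u ↔ it x j s u) :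
    ∃ c, ∀ j N, X (j - d') (N + c) = X j N + e' ∧ S (j - d') (N + c) = S j N ∧
      U (j - d') (N + c) = U j N := by
  have hc : ∀ j, ∃ c, ∀ N, X (j - d') (N + c) = X j N + e' ∧ S (j - d') (N + c) = S j N ∧
      U (j - d') (N + c) = U j N := by
    intro j
    have q2 : Seq p r (fun x => it x (j - d')) (fun N => X j N + e') (S j) (U j) :=
      ⟨fun N => (hs _ _ _ _).2 ((y.q j).mem N), fun N => by
        show X j (N + 1) + e' = X j N + e' + _
        rw [(y.q j).nx]; ring⟩
    obtain ⟨a, ha, -, -⟩ := (y.q (j - d')).surj h hm (q2.mem 0)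
    exact ⟨a, (y.q (j - d')).coincide h hm q2 ha⟩
  choose cc hcc using hc
  have hconst : ∀ j, cc (j + 1) = cc j := by
    intro j
    obtain ⟨x, s, hx⟩ := h.mixed hm hd hd0 true j
    obtain ⟨N, -, -, hN⟩ := (y.q j).surj h hm hx
    have h1 := (hcc (j + 1) N).1
    have h2 := hcc j N
    have h3 := y.up (j - d') (N + cc j) (by rw [h2.2.2]; exact hN)
    have h4 := y.up j N hN
    have h5 : X (j + 1 - d') (N + cc (j + 1)) = X (j + 1 - d') (N + cc j) := by
      rw [h1, h4.1]
      rw [show j - d' + 1 = j + 1 - d' by ring] at h3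
      rw [h3.1, h2.1, h2.2.1]; ring
    have := (y.q (j + 1 - d')).inj hm h5
    omega
  refine ⟨cc 0, fun j N => ?_⟩
  rw [← const_of_step hconst j]
  exact hcc j N

theorem exists_B (h : Rows p r d e it) (hm : Hyp p r) (hd : d % 2 = 1) (hd0 : 0 < d)
    (y : Syn p r it X S U) (j N : ℤ) : ∃ B, X j N = r * N + X 0 0 + (p - r) * B := by
  have h0 : ∀ j, (p - r) ∣ X (j + 1) 0 - X j 0 := by
    intro j
    obtain ⟨x, s, hx⟩ := h.mixed hm hd hd0 true j
    obtain ⟨N, -, -, hN⟩ := (y.q j).surj h hm hx
    have h1 := (y.up j N hN).1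
    have h2 := (y.q j).dvd N
    have h3 := (y.q (j + 1)).dvd N
    have h4 : (p - r) ∣ X (j + 1) N - X j N := by
      rw [h1]
      cases S j N
      · exact ⟨-1, by simp [off]⟩
      · exact ⟨0, by simp [off]⟩
    have := dvd_sub (dvd_add h4 h2) h3
    rw [show X (j + 1) N - X j N + (X j N - X j 0 - r * N) - (X (j + 1) N - X (j + 1) 0 - r * N) =
      X (j + 1) 0 - X j 0 by ring] at this
    exact this
  have h1 : ∀ j, (p - r) ∣ X j 0 - X 0 0 := by
    intro j
    induction j using Int.induction_on with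
    | zero => exact ⟨0, by ring⟩
    | succ n ih =>
      have := dvd_add (h0 n) ih
      rw [show X ((n : ℤ) + 1) 0 - X n 0 + (X n 0 - X 0 0) = X ((n : ℤ) + 1) 0 - X 0 0 by ring] at this
      exact this
    | pred n ih =>
      have h3 := h0 (-(n : ℤ) - 1)
      rw [show -(n : ℤ) - 1 + 1 = -n by ring] at h3
      have := dvd_sub ih h3
      rw [show X (-(n : ℤ)) 0 - X 0 0 - (X (-(n : ℤ)) 0 - X (-(n : ℤ) - 1) 0) =
        X (-(n : ℤ) - 1) 0 - X 0 0 by ring] at this
      exact this
  obtain ⟨B, hB⟩ := dvd_add (h1 j) ((y.q j).dvd N)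
  exact ⟨B, by linarith⟩

end Syn

theorem exists_tau (U : ℤ → ℤ → Bool) (halt : ∀ j N, U (j + 1) N = !U j N) :
    ∃ τ : ℤ → ℤ, ∀ j N, U j N = true ↔ (j - τ N) % 2 = 0 := by
  refine ⟨fun N => if U 0 N = true then 0 else 1, fun j N => ?_⟩
  induction j using Int.induction_on with
  | zero =>
    by_cases h : U 0 N = true
    · simp [h]
    · simp [h]
  | succ n ih =>
    rw [halt]
    cases h : U n N
    · rw [h] at ih
      simp only [Bool.not_false, true_iff]
      simp only [Bool.false_eq_true, false_iff] at ih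
      omega
    · rw [h] at ih
      simp only [Bool.not_true, Bool.false_eq_true, false_iff]
      simp only [true_iff] at ih
      omega
  | pred n ih =>
    have h1 := halt (-(n : ℤ) - 1) N
    rw [show -(n : ℤ) - 1 + 1 = -n by ring] at h1
    rw [h1] at ih
    cases h : U (-(n : ℤ) - 1) N
    · rw [h] at ih
      simp only [Bool.false_eq_true, false_iff]
      simp only [Bool.not_false, true_iff] at ih
      omega
    · rw [h] at ih
      simp only [true_iff]
      simp only [Bool.not_true, Bool.false_eq_true, false_iff] at ih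
      omega

theorem sync_of_rows (h : Rows p r d e it) (hm : Hyp p r) (hm3 : p ≠ 3 * r) (hd : d % 2 = 1)
    (hd0 : 0 < d) (hT : 0 < T) (hpe : ∀ x j s u, it (x + T) j s u ↔ it x j s u) : ∃ D τ c q, Sync D τ d c (2 * q - d - c) ∧ (p - r) * q = e - r * c := by
  obtain ⟨X, S, U, y⟩ := exists_syn h hm hm3 hd hd0
  choose B hB using y.exists_B h hm hd hd0
  obtain ⟨τ, hτ⟩ := exists_tau U y.alt
  have hm1 : p - r ≠ 0 := by have := hm.rp; omega
  have hBs : ∀ j N, B j (N + 1) = B j N + (if S j N then 1 else 0) := by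
    intro j N
    apply mul_left_cancel₀ hm1
    have h1 := hB j N
    have h2 := hB j (N + 1)
    have h3 := (y.q j).nx N
    cases hs : S j N
    · rw [hs] at h3
      simp only [len, Bool.false_eq_true, if_false] at h3 ⊢
      linarith
    · rw [hs] at h3
      simp only [len, if_true] at h3 ⊢
      linarith
  have hBf : ∀ j N, U j N = true → B (j + 1) N = B j N - (if S j N then 0 else 1) := by
    intro j N hU
    apply mul_left_cancel₀ hm1
    have h1 := hB j N
    have h2 := hB (j + 1) N
    have h3 := (y.up j N hU).1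
    cases hs : S j N
    · rw [hs] at h3
      simp only [off, Bool.false_eq_true, if_false] at h3 ⊢
      linarith
    · rw [hs] at h3
      simp only [off, if_true] at h3 ⊢
      linarith
  obtain ⟨c, hc⟩ := y.shift h hm hd hd0 e d h.sh
  obtain ⟨p', hp⟩ := y.shift h hm hd hd0 T 0 (fun x j s u => by rw [sub_zero]; exact hpe x j s u)
  have hBc : ∀ j N, (p - r) * (B (j - d) (N + c) - B j N) = e - r * c := by
    intro j N
    have h1 := (hc j N).1
    rw [hB, hB j N] at h1
    linarith
  have hBp : ∀ j N, (p - r) * (B j (N + p') - B j N) = T - r * p' := by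
    intro j N
    have h1 := (hp j N).1
    rw [sub_zero, hB, hB j N] at h1
    linarith
  have hBc' : ∀ j N, B (j - d) (N + c) = B j N + (B (0 - d) (0 + c) - B 0 0) := by
    intro j N
    have := mul_left_cancel₀ hm1 ((hBc j N).trans (hBc 0 0).symm)
    linarith
  have hBp' : ∀ j N, B j (N + p') = B j N + (B 0 (0 + p') - B 0 0) := by
    intro j N
    have := mul_left_cancel₀ hm1 ((hBp j N).trans (hBp 0 0).symm)
    linarith
  have hp0 : 0 < p' := by
    by_contra hcon
    have h1 := (y.q 0).lin hm (show 0 + p' ≤ 0 by omega)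
    have h2 := (hp 0 0).1
    rw [sub_zero] at h2
    omega
  set q := B (0 - d) (0 + c) - B 0 0 with hq
  set q' := B 0 (0 + p') - B 0 0 with hq'
  refine ⟨fun j N => 2 * B j N + j - N, τ, c, q, ⟨?_, ?_, ?_, ?_, ?_, ?_, ?_⟩, hBc 0 0⟩
  · intro j N
    show 2 * B j (N + 1) + j - (N + 1) = _ ∨ 2 * B j (N + 1) + j - (N + 1) = _
    rw [hBs]
    cases S j N
    · simp only [Bool.false_eq_true, if_false]; right; ring
    · simp only [if_true]; left; ring
  · intro j N hj
    have hU := (hτ j N).2 hj
    have h1 := hBf j N hU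
    have h2 := hBs j N
    have h3 := hBs (j + 1) N
    have h4 := (y.up j N hU).2.1
    rw [h4, h1] at h3
    show 2 * B (j + 1) N + (j + 1) - N = 2 * B j (N + 1) + j - (N + 1) ∧
      2 * B (j + 1) (N + 1) + (j + 1) - (N + 1) = 2 * B j N + j - N
    rw [h1, h2, h3]
    cases S j N
    · simp only [Bool.false_eq_true, if_false, Bool.not_false, if_true]
      constructor <;> ring
    · simp only [Bool.false_eq_true, if_false, Bool.not_true, if_true]
      constructor <;> ring
  · intro j N hN
    have hU : U j (N + 1) = U j N := by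
      have h1 := hτ j N
      have h2 := hτ j (N + 1)
      have h3 : (j - τ N) % 2 = 0 ↔ (j - τ (N + 1)) % 2 = 0 := by omega
      rw [← h1, ← h2] at h3
      exact (Bool.eq_iff_iff.2 h3).symm
    have h1 := (y.q j).mem N
    have h2 := (y.q j).mem (N + 1)
    rw [(y.q j).nx, hU] at h2
    have h3 := h.altern hm h1 h2
    have h4 := hBs j N
    have h5 := hBs j (N + 1)
    rw [h3, h4, show N + 1 + 1 = N + 2 by ring] at h5
    show 2 * B j (N + 2) + j - (N + 2) = 2 * B j N + j - N
    rw [h5]
    cases S j N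
    · simp only [Bool.false_eq_true, if_false, Bool.not_false, if_true]; ring
    · simp only [Bool.false_eq_true, if_false, Bool.not_true, if_true]; ring
  · intro j N
    show (2 * B j N + j - N - N - j) % 2 = 0
    omega
  · intro j N
    show 2 * B (j - d) (N + c) + (j - d) - (N + c) = 2 * B j N + j - N + (2 * q - d - c)
    rw [hBc']; ring
  · intro N
    have h1 := hτ d N
    have h2 := hτ (d - d) (N + c)
    rw [(hc d N).2.2, h1] at h2
    omega
  · refine ⟨p', hp0, 2 * q' - p', fun N => ⟨fun j => ?_, ?_⟩⟩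
    · show 2 * B j (N + p') + j - (N + p') = 2 * B j N + j - N + (2 * q' - p')
      rw [hBp']; ring
    · have h1 := hτ 0 N
      have h2 := hτ (0 - 0) (N + p')
      rw [(hp 0 N).2.2, h1] at h2
      omega

theorem necessity (h : Rows p r d e it) (hm : Hyp p r) (hm3 : p ≠ 3 * r) (hd : d % 2 = 1)
    (hd0 : 0 < d) (hT : 0 < T) (hpe : ∀ x j s u, it (x + T) j s u ↔ it x j s u) :
    (p + r) ∣ e + r * d ∨ ∃ q g, 0 ≤ g ∧ g ≤ d ∧ (p + r) * q = e + 2 * r * g ∧ q ≠ g := by
  obtain ⟨D, τ, c, q, y, hq⟩ := sync_of_rows h hm hm3 hd hd0 hT hpe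
  have h1 := y.kle hd hd0
  have h2 := y.cne hd
  rcases Int.emod_two_eq_zero_or_one (2 * q - d - c) with h3 | h3
  · left
    have h4 := y.even_zero hd hd0 h3
    refine ⟨q, ?_⟩
    have h5 : c = 2 * q - d := by omega
    rw [h5] at hq
    linarith
  · right
    refine ⟨q, (2 * q - d - c + d) / 2, by omega, by omega, ?_, ?_⟩
    · have h5 : 2 * ((2 * q - d - c + d) / 2) = 2 * q - d - c + d := by omega
      rw [show 2 * r * ((2 * q - d - c + d) / 2) = r * (2 * ((2 * q - d - c + d) / 2)) by ring, h5]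
      linarith
    · intro h5
      apply h2
      omega

end MPae024f.TP
end

section
/-! Sufficiency: synchronized rows give tilings, and the three families. -/
namespace MPae024f.TP

section rows

variable {p r d e c : ℤ} {X : ℤ → ℤ → ℤ} {S U : ℤ → ℤ → Bool}

theorem rows_lin (hr : 1 ≤ r) (hp : 1 ≤ p) (h1 : ∀ j N, X j (N + 1) = X j N + len p r (S j N))
    (j : ℤ) {N M : ℤ} (hNM : N ≤ M) : X j N + (M - N) ≤ X j M := by
  induction M, hNM using Int.leInduction with
  | base => simp
  | succ M _ ih =>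
    rw [h1]
    have : 1 ≤ len p r (S j M) := by cases S j M <;> simp [len] <;> omega
    omega

theorem rows_cell (hr : 1 ≤ r) (hp : 1 ≤ p) (h1 : ∀ j N, X j (N + 1) = X j N + len p r (S j N))
    (x j : ℤ) : ∃ N, X j N ≤ x ∧ x < X j N + len p r (S j N) := by
  obtain ⟨N, h2, h3⟩ := Int.exists_greatest_of_bdd (P := fun N => X j N ≤ x)
    ⟨max 0 (x - X j 0), fun z hz => by
      rcases le_or_gt z 0 with h3 | h3
      · exact h3.trans (le_max_left _ _)
      · have := rows_lin hr hp h1 j h3.le
        exact le_trans (by omega) (le_max_right _ _)⟩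
    ⟨min 0 (x - X j 0), by
      have := rows_lin hr hp h1 j (min_le_left 0 (x - X j 0))
      have h4 := min_le_right 0 (x - X j 0)
      show X j _ ≤ x
      omega⟩
  refine ⟨N, h2, ?_⟩
  rw [← h1]
  by_contra hcon
  have := h3 (N + 1) (by omega)
  omega

theorem rows_cell_uniq (hr : 1 ≤ r) (hp : 1 ≤ p)
    (h1 : ∀ j N, X j (N + 1) = X j N + len p r (S j N))
    {x j N N' : ℤ} (a1 : X j N ≤ x) (a2 : x < X j N + len p r (S j N))
    (b1 : X j N' ≤ x) (b2 : x < X j N' + len p r (S j N')) : N = N' := by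
  rw [← h1] at a2 b2
  rcases lt_trichotomy N N' with h | h | h
  · have := rows_lin hr hp h1 j (show N + 1 ≤ N' by omega); omega
  · exact h
  · have := rows_lin hr hp h1 j (show N' + 1 ≤ N by omega); omega

/-- indexed rows give `Rows` -/
theorem rows_of_seq (hr : 1 ≤ r) (hp : 1 ≤ p)
    (h1 : ∀ j N, X j (N + 1) = X j N + len p r (S j N))
    (h2 : ∀ j N, U j N = true → X (j + 1) N = X j N - off p r (S j N) ∧ S (j + 1) N = !S j N)
    (h3 : ∀ j N, U (j + 1) N = !U j N)
    (h4 : ∀ j N, X (j - d) (N + c) = X j N + e ∧ S (j - d) (N + c) = S j N ∧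
      U (j - d) (N + c) = U j N) :
    Rows p r d e (fun x j s u => ∃ N, X j N = x ∧ S j N = s ∧ U j N = u) := by
  refine ⟨?_, ?_, ?_, ?_⟩
  · intro x j
    obtain ⟨N, a, b⟩ := rows_cell hr hp h1 x j
    exact ⟨X j N, S j N, U j N, ⟨N, rfl, rfl, rfl⟩, a, b⟩
  · rintro x j y s u y' s' u' ⟨N, rfl, rfl, rfl⟩ ⟨N', rfl, rfl, rfl⟩ a1 a2 b1 b2
    have := rows_cell_uniq hr hp h1 a1 a2 b1 b2
    subst this
    exact ⟨rfl, rfl, rfl⟩
  · intro x j s
    constructor
    · rintro ⟨N, rfl, rfl, hU⟩
      obtain ⟨e1, e2⟩ := h2 j N hU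
      exact ⟨N, e1, e2, by rw [h3, hU]; rfl⟩
    · rintro ⟨N, hX, hS, hU⟩
      have hU' : U j N = true := by
        have := h3 j N
        rw [hU] at this
        revert this; cases U j N <;> simp
      obtain ⟨e1, e2⟩ := h2 j N hU'
      have hS' : S j N = s := by
        rw [hS] at e2
        revert e2; cases S j N <;> cases s <;> simp
      rw [hX, hS'] at e1
      exact ⟨N, by omega, hS', hU'⟩
  · intro x j s u
    constructor
    · rintro ⟨N, hX, hS, hU⟩
      obtain ⟨e1, e2, e3⟩ := h4 j (N - c)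
      rw [show N - c + c = N by ring] at e1 e2 e3
      exact ⟨N - c, by omega, by rw [← e2, hS], by rw [← e3, hU]⟩
    · rintro ⟨N, hX, hS, hU⟩
      obtain ⟨e1, e2, e3⟩ := h4 j N
      exact ⟨N + c, by omega, by rw [e2, hS], by rw [e3, hU]⟩

end rows

/-- the general construction from a height function `H` and a switching function `τ` -/
theorem rows_general {p r d e : ℤ} (hr : 1 ≤ r) (hp : 1 ≤ p) (τ H : ℤ → ℤ)
    (q κ c : ℤ) (hκ : (p + r) * q = e + r * (d + κ)) (hc : c = 2 * q - d - κ)
    (s1 : ∀ N, (τ (N + 1) - τ N) % 2 = 0 ∨ ∀ j, H (j + 1) = H j ∨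
      (H (j + 1) = H j + 1 ∧ (H j - N - j) % 2 = 0) ∨
      (H (j + 1) = H j - 1 ∧ (H j - N - j) % 2 = 1))
    (s2 : ∀ j, H (j - d) = H j + κ)
    (s3 : ∀ N, (τ (N + c) - τ N - d) % 2 = 0) : ∃ it, Rows p r d e it := by
  obtain ⟨l, hl⟩ : ∃ l : ℤ → ℤ → ℤ, ∀ j N, l j N = if (j - τ N) % 2 = 0 then H (j + 1) else H j :=
    ⟨_, fun j N => rfl⟩
  obtain ⟨D, hD⟩ : ∃ D : ℤ → ℤ → ℤ, ∀ j N, D j N = l j N + (N + j - l j N) % 2 :=
    ⟨_, fun j N => rfl⟩
  obtain ⟨B, hB⟩ : ∃ B : ℤ → ℤ → ℤ, ∀ j N, 2 * B j N = D j N + N - j :=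
    ⟨fun j N => (D j N + N - j) / 2, fun j N => by
      show 2 * ((D j N + N - j) / 2) = D j N + N - j
      have := hD j N
      omega⟩
  have hl' : ∀ j N, l (j - d) (N + c) = l j N + κ := by
    intro j N
    have g1 := s3 N
    have g2 := s2 j
    have g3 := s2 (j + 1)
    rw [hl, hl, show j - d + 1 = j + 1 - d by ring]
    split_ifs <;> omega
  have hD' : ∀ j N, D (j - d) (N + c) = D j N + κ := by
    intro j N
    rw [hD, hD, hl']
    omega
  have hBc : ∀ j N, B (j - d) (N + c) = B j N + q := by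
    intro j N
    have g1 := hB (j - d) (N + c)
    rw [hD'] at g1
    have g2 := hB j N
    omega
  have hBs : ∀ j N, B j (N + 1) = B j N + (if (N + j - l j N) % 2 = 0 then 1 else 0) := by
    intro j N
    have g1 := hB j (N + 1)
    have g2 := hB j N
    rw [hD] at g1 g2
    have g3 := hl j N
    have g4 := hl j (N + 1)
    rcases s1 N with g5 | g5
    · have g6 : l j (N + 1) = l j N := by
        rw [g3, g4]; split_ifs <;> first | rfl | omega
      rw [g6] at g1
      split_ifs <;> omega
    · have g6 := g5 j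
      split_ifs at g3 g4 ⊢ <;> omega
  have hBf : ∀ j N, (j - τ N) % 2 = 0 →
      B (j + 1) N = B j N - (if (N + j - l j N) % 2 = 0 then 0 else 1) ∧ l (j + 1) N = l j N := by
    intro j N hj
    have g1 := hB (j + 1) N
    have g2 := hB j N
    rw [hD] at g1 g2
    have g6 : l (j + 1) N = l j N := by
      rw [hl, hl, if_neg (by omega), if_pos hj]
    rw [g6] at g1
    refine ⟨?_, g6⟩
    split_ifs <;> omega
  refine ⟨_, rows_of_seq (c := c) (X := fun j N => r * N + (p - r) * B j N)
    (S := fun j N => decide ((N + j - l j N) % 2 = 0)) (U := fun j N => decide ((j - τ N) % 2 = 0))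
    hr hp ?_ ?_ ?_ ?_⟩
  · intro j N
    rw [hBs]
    by_cases g : (N + j - l j N) % 2 = 0
    · rw [if_pos g, decide_eq_true g]; simp only [len, if_true]; ring
    · rw [if_neg g, decide_eq_false g]; simp only [len, Bool.false_eq_true, if_false]; ring
  · intro j N hU
    have hU' : (j - τ N) % 2 = 0 := of_decide_eq_true hU
    obtain ⟨g1, g2⟩ := hBf j N hU'
    rw [g1, g2]
    by_cases g : (N + j - l j N) % 2 = 0
    · rw [if_pos g, decide_eq_true g, decide_eq_false (by omega)]
      simp only [off, if_true, Bool.not_true, and_true]; ring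
    · rw [if_neg g, decide_eq_false g, decide_eq_true (by omega)]
      simp only [off, Bool.false_eq_true, if_false, Bool.not_false, and_true]; ring
  · intro j N
    by_cases g : (j - τ N) % 2 = 0
    · rw [decide_eq_true g, decide_eq_false (by omega)]; rfl
    · rw [decide_eq_false g, decide_eq_true (by omega)]; rfl
  · intro j N
    refine ⟨?_, ?_, ?_⟩
    · rw [hBc]
      have : r * c + (p - r) * q = e := by rw [hc]; linarith
      linarith
    · rw [hl']
      have : κ + c + d = 2 * q := by rw [hc]; ring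
      congr 1
      apply propext
      constructor <;> intro g <;> omega
    · congr 1
      apply propext
      have := s3 N
      constructor <;> intro g <;> omega

/-- even difference: the rows are matched in pairs -/
theorem rows_even {p r d e : ℤ} (hr : 1 ≤ r) (hp : 1 ≤ p) (hd0 : 0 < d) (hd : d % 2 = 0) :
    ∃ it, Rows p r d e it := by
  obtain ⟨g, hg⟩ : ∃ g : ℤ, d = 2 * g := ⟨d / 2, by omega⟩
  have hb1 : ∀ j : ℤ, (j - d) / d = j / d - 1 := by
    intro j
    rw [show j - d = j + (-1) * d by ring, Int.add_mul_ediv_right _ _ (by omega)]; ring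
  have hb2 : ∀ j : ℤ, j % 2 = 0 → (j + 1) / d = j / d := by
    intro j hj
    have h1 := Int.emod_add_mul_ediv j d
    have h2 : 0 ≤ j % d := Int.emod_nonneg _ (by omega)
    have h3 : j % d < d := Int.emod_lt_of_pos _ hd0
    have h4 : (j % d) % 2 = 0 := by
      rw [Int.emod_emod_of_dvd _ ⟨g, hg⟩]; exact hj
    have h5 : j + 1 = (j % d + 1) + d * (j / d) := by linarith
    rw [h5, Int.add_mul_ediv_left _ _ (by omega), Int.ediv_eq_zero_of_lt (by omega) (by omega)]
    ring
  refine ⟨_, rows_of_seq (c := 0)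
    (X := fun j N => -e * (j / d) + (p + r) * (N / 2) +
      (if N % 2 = 0 then 0 else if j % 2 = 0 then p else r))
    (S := fun j N => decide ((N + j) % 2 = 0)) (U := fun j _ => decide (j % 2 = 0))
    hr hp ?_ ?_ ?_ ?_⟩
  · intro j N
    by_cases hN : N % 2 = 0
    · have e1 : (N + 1) / 2 = N / 2 := by omega
      simp only [e1]
      rw [if_pos hN, if_neg (show ¬ (N + 1) % 2 = 0 by omega)]
      by_cases hj : j % 2 = 0
      · rw [if_pos hj, decide_eq_true (show (N + j) % 2 = 0 by omega)]
        simp only [len, if_true]; ring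
      · rw [if_neg hj, decide_eq_false (show ¬ (N + j) % 2 = 0 by omega)]
        simp only [len, Bool.false_eq_true, if_false]; ring
    · have e1 : (N + 1) / 2 = N / 2 + 1 := by omega
      simp only [e1]
      rw [if_neg hN, if_pos (show (N + 1) % 2 = 0 by omega)]
      by_cases hj : j % 2 = 0
      · rw [if_pos hj, decide_eq_false (show ¬ (N + j) % 2 = 0 by omega)]
        simp only [len, Bool.false_eq_true, if_false]; ring
      · rw [if_neg hj, decide_eq_true (show (N + j) % 2 = 0 by omega)]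
        simp only [len, if_true]; ring
  · intro j N hU
    have hj : j % 2 = 0 := of_decide_eq_true hU
    have hj' : ¬ (j + 1) % 2 = 0 := by omega
    simp only [hb2 j hj]
    rw [if_pos hj, if_neg hj']
    by_cases hN : N % 2 = 0
    · rw [if_pos hN, decide_eq_true (show (N + j) % 2 = 0 by omega),
        decide_eq_false (show ¬ (N + (j + 1)) % 2 = 0 by omega), if_pos hN]
      simp [off]
    · rw [if_neg hN, decide_eq_false (show ¬ (N + j) % 2 = 0 by omega),
        decide_eq_true (show (N + (j + 1)) % 2 = 0 by omega), if_neg hN]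
      simp only [off, Bool.false_eq_true, if_false, Bool.not_false, and_true]; ring
  · intro j N
    by_cases g : j % 2 = 0
    · rw [decide_eq_true g, decide_eq_false (by omega)]; rfl
    · rw [decide_eq_false g, decide_eq_true (by omega)]; rfl
  · intro j N
    refine ⟨?_, ?_, ?_⟩
    · simp only [hb1, add_zero]
      have hpar : ((j - d) % 2 = 0) ↔ (j % 2 = 0) := by omega
      simp only [hpar]
      ring
    · congr 1
      apply propext
      constructor <;> intro g <;> omega
    · congr 1
      apply propext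
      constructor <;> intro g <;> omega

theorem rows_dvd {p r d e : ℤ} (hr : 1 ≤ r) (hp : 1 ≤ p) (hd : (p + r) ∣ e + r * d) :
    ∃ it, Rows p r d e it := by
  obtain ⟨q, hq⟩ := hd
  refine rows_general hr hp (fun N => N) (fun j => 0) q 0 (2 * q - d)
    (by linarith) (by ring) (fun N => Or.inr fun j => Or.inl rfl) (fun j => by simp) ?_
  intro N
  show (N + (2 * q - d) - N - d) % 2 = 0
  omega

theorem ediv_switch {w N : ℤ} (hw : 0 < w) (h : (N + 1) / w ≠ N / w) : w ∣ N + 1 := by
  by_contra hcon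
  apply h
  have h1 := Int.emod_add_mul_ediv (N + 1) w
  have h2 : 0 ≤ (N + 1) % w := Int.emod_nonneg _ (by omega)
  have h3 : (N + 1) % w < w := Int.emod_lt_of_pos _ hw
  have h4 : (N + 1) % w ≠ 0 := fun h5 => hcon (Int.dvd_of_emod_eq_zero h5)
  have h5 : N = ((N + 1) % w - 1) + w * ((N + 1) / w) := by linarith
  have h6 : N / w = ((N + 1) % w - 1) / w + (N + 1) / w := by
    conv_lhs => rw [h5]
    rw [Int.add_mul_ediv_left _ _ (by omega)]
  have h7 : ((N + 1) % w - 1) / w = 0 := Int.ediv_eq_zero_of_lt (by omega) (by omega)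
  rw [h6, h7]; ring

theorem rows_odd {p r d e q g : ℤ} (hr : 1 ≤ r) (hp : 1 ≤ p) (hd0 : 0 < d) (hd : d % 2 = 1)
    (hg0 : 0 ≤ g) (hgd : g ≤ d) (hq : (p + r) * q = e + 2 * r * g) (hqg : q ≠ g) :
    ∃ it, Rows p r d e it := by
  refine rows_general hr hp (fun N => N / |2 * (q - g)|)
    (fun j => (if j % d < g then -(j % d) else j % d - 2 * g + 1) + (j / d) * (d - 2 * g))
    q (2 * g - d) (2 * (q - g)) (by linarith) (by ring) ?_ ?_ ?_
  · intro N
    by_cases hsw : ((N + 1) / |2 * (q - g)| - N / |2 * (q - g)|) % 2 = 0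
    · left; exact hsw
    · right
      have hN : N % 2 = 1 := by
        have h1 : |2 * (q - g)| ∣ N + 1 := by
          apply ediv_switch (abs_pos.2 (by omega))
          intro h2; rw [h2] at hsw; simp at hsw
        have h2 : 2 * (q - g) ∣ N + 1 := (abs_dvd _ _).1 h1
        have h3 : (2 : ℤ) ∣ N + 1 := dvd_trans ⟨q - g, rfl⟩ h2
        omega
      intro j
      have h1 := Int.emod_add_mul_ediv j d
      have h2 : 0 ≤ j % d := Int.emod_nonneg _ (by omega)
      have h3 : j % d < d := Int.emod_lt_of_pos _ hd0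
      have h4 : (j / d) * (d - 2 * g) = d * (j / d) - 2 * (g * (j / d)) := by ring
      rcases lt_or_ge (j % d + 1) d with h5 | h5
      · have h6 : (j + 1) % d = j % d + 1 := by
          rw [Int.add_emod, Int.emod_eq_of_lt (show (0:ℤ) ≤ 1 by omega) (by omega)]
          exact Int.emod_eq_of_lt (by omega) h5
        have h7 : (j + 1) / d = j / d := by
          have h8 := Int.emod_add_mul_ediv (j + 1) d
          rw [h6] at h8
          apply mul_left_cancel₀ (ne_of_gt hd0)
          linarith
        rw [h6, h7, h4]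
        generalize d * (j / d) = v at *
        generalize g * (j / d) = w at *
        split_ifs <;> omega
      · have h6 : (j + 1) % d = 0 := by
          have : j + 1 = d * (j / d + 1) := by
            have : j % d = d - 1 := by omega
            linarith
          rw [this, Int.mul_emod_right]
        have h7 : (j + 1) / d = j / d + 1 := by
          have h8 := Int.emod_add_mul_ediv (j + 1) d
          rw [h6] at h8
          apply mul_left_cancel₀ (ne_of_gt hd0)
          have : j % d = d - 1 := by omega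
          linarith
        have h9 : (j / d + 1) * (d - 2 * g) = d * (j / d) - 2 * (g * (j / d)) + d - 2 * g := by ring
        rw [h6, h7, h4, h9]
        generalize d * (j / d) = v at *
        generalize g * (j / d) = w at *
        split_ifs <;> omega
  · intro j
    have h1 : (j - d) / d = j / d - 1 := by
      rw [show j - d = j + (-1) * d by ring, Int.add_mul_ediv_right _ _ (by omega)]; ring
    have h2 : (j - d) % d = j % d := by rw [Int.sub_emod_right]
    rw [h1, h2]; ring
  · intro N
    have hne : 2 * (q - g) ≠ 0 := by omega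
    rcases lt_or_gt_of_ne hne with h1 | h1
    · rw [abs_of_neg h1]
      have : (N + 2 * (q - g)) / -(2 * (q - g)) = N / -(2 * (q - g)) - 1 := by
        rw [show N + 2 * (q - g) = N + (-1) * -(2 * (q - g)) by ring,
          Int.add_mul_ediv_right _ _ (by omega)]; ring
      rw [this]; omega
    · rw [abs_of_pos h1]
      have : (N + 2 * (q - g)) / (2 * (q - g)) = N / (2 * (q - g)) + 1 := by
        rw [show N + 2 * (q - g) = N + 1 * (2 * (q - g)) by ring,
          Int.add_mul_ediv_right _ _ (by omega)]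
      rw [this]; omega

/-- the arithmetic condition -/
def Cond (p r d e : ℤ) : Prop :=
  2 ∣ d ∨ (p + r) ∣ e + r * d ∨ ∃ q s : ℤ, 0 ≤ s ∧ s ≤ d ∧ (p + r) * q = e + 2 * r * s ∧ q ≠ s

theorem suff {p r d e : ℤ} (hr : 1 ≤ r) (hp : 1 ≤ p) (hd0 : 0 < d) (hde : IsCoprime d e)
    (h : Cond p r d e) : ∃ P Q, PQ (Tl p r d e) P Q := by
  have key : ∃ it, Rows p r d e it := by
    rcases h with h | h | ⟨q, s, h0, h1, h3, h4⟩
    · exact rows_even hr hp hd0 (Int.emod_eq_zero_of_dvd h)
    · exact rows_dvd hr hp h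
    · rcases Int.emod_two_eq_zero_or_one d with h2 | h2
      · exact rows_even hr hp hd0 h2
      · exact rows_odd hr hp hd0 h2 h0 h1 h3 h4
  obtain ⟨it, h⟩ := key
  exact pq_of_rows hd0 hde h

end MPae024f.TP
end

section
/-! Classification in terms of translation sets, generic ratio of the lengths. -/
namespace MPae024f.TP

theorem tl_finite (p r d e : ℤ) : (Tl p r d e).Finite := by
  have : Tl p r d e ⊆ (fun i => d * i) '' (Set.Ico 0 p) ∪ (fun i => e + d * i) '' (Set.Ico 0 r) := by
    rintro x (⟨i, h0, h1, rfl⟩ | ⟨i, h0, h1, rfl⟩)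
    · left; exact ⟨i, ⟨h0, h1⟩, rfl⟩
    · right; exact ⟨i, ⟨h0, h1⟩, rfl⟩
  exact Set.Finite.subset (((Set.finite_Ico _ _).image _).union ((Set.finite_Ico _ _).image _)) this

theorem classify_generic {p r d e : ℤ} (hr : 1 ≤ r) (hrp : r < p) (h2 : p ≠ 2 * r)
    (h3 : p ≠ 3 * r) (hd0 : 0 < d) (hde : IsCoprime d e)
    (he : ∀ i i', 0 ≤ i → i < p → 0 ≤ i' → i' < r → d * i ≠ e + d * i') :
    (∃ P Q, PQ (Tl p r d e) P Q) ↔ Cond p r d e := by
  constructor
  · intro h
    rcases Int.emod_two_eq_zero_or_one d with hd | hd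
    · exact Or.inl (Int.dvd_of_emod_eq_zero hd)
    · right
      obtain ⟨it, T, hT, hrows, hpe⟩ := exists_rows hd0 (by omega) (by omega) he h
      exact necessity hrows ⟨hr, hrp, h2⟩ h3 hd hd0 hT hpe
  · exact suff hr (by omega) hd0 hde

end MPae024f.TP
end

section
/-! Explicit tilings by strips of two rows, and for `p = 2 r` of three rows. -/
namespace MPae024f.TP

/-- position inside a period -/
theorem cellmod {M y x c l : ℤ} (hM : 0 < M) (hy : y % M = c) (hcl : c + l ≤ M) (h1 : y ≤ x)
    (h2 : x < y + l) : x / M = y / M ∧ x % M = c + (x - y) := by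
  have h3 := Int.emod_add_mul_ediv y M
  have h4 : 0 ≤ y % M := Int.emod_nonneg _ hM.ne'
  have h5 : x = (c + (x - y)) + M * (y / M) := by rw [← hy]; linarith
  have h6 : x / M = (c + (x - y)) / M + y / M := by
    conv_lhs => rw [h5]
    rw [Int.add_mul_ediv_left _ _ hM.ne']
  have h7 : (c + (x - y)) / M = 0 := Int.ediv_eq_zero_of_lt (by omega) (by omega)
  refine ⟨by rw [h6, h7, zero_add], ?_⟩
  conv_lhs => rw [h5]
  rw [Int.add_mul_emod_self_left]
  exact Int.emod_eq_of_lt (by omega) (by omega)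

theorem emod_shift {M x a b : ℤ} (hM : 0 < M) (h0 : 0 ≤ b) (h0' : 0 ≤ b + a) (h1 : b < M)
    (h2 : b + a < M) : (x - a) % M = b ↔ x % M = b + a := by
  constructor
  · intro h
    have h3 := Int.emod_add_mul_ediv (x - a) M
    have h5 : x = (b + a) + M * ((x - a) / M) := by linarith
    rw [h5, Int.add_mul_emod_self_left]
    exact Int.emod_eq_of_lt h0' h2
  · intro h
    have h3 := Int.emod_add_mul_ediv x M
    have h5 : x - a = b + M * (x / M) := by linarith
    rw [h5, Int.add_mul_emod_self_left]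
    exact Int.emod_eq_of_lt h0 h1

/-- the items of a row of type `t` -/
def pat (p r t x : ℤ) (s u : Bool) : Prop :=
  (t = 0 ∧ u = true ∧ ((s = true ∧ x % (p + r) = 0) ∨ (s = false ∧ x % (p + r) = p))) ∨
  (t = 1 ∧ u = false ∧ ((s = false ∧ x % (p + r) = 0) ∨ (s = true ∧ x % (p + r) = r))) ∨
  (t = 2 ∧ u = true ∧ s = true ∧ x % p = 0) ∨
  (t = 3 ∧ s = false ∧ ((u = false ∧ x % p = 0) ∨ (u = true ∧ x % p = r))) ∨
  (t = 4 ∧ u = false ∧ s = true ∧ x % p = 0)

theorem pat_cov {p r t : ℤ} (hr : 0 < r) (hp : 0 < p) (ht : 0 ≤ t) (ht4 : t ≤ 4)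
    (h2 : 2 ≤ t → p = 2 * r) (x : ℤ) :
    ∃ y s u, pat p r t y s u ∧ y ≤ x ∧ x < y + len p r s := by
  have hk : 0 < p + r := by omega
  have k1 : 0 ≤ x % (p + r) := Int.emod_nonneg _ hk.ne'
  have k2 : x % (p + r) < p + r := Int.emod_lt_of_pos _ hk
  have k3 : 0 ≤ x % p := Int.emod_nonneg _ hp.ne'
  have k4 : x % p < p := Int.emod_lt_of_pos _ hp
  have e1 : ∀ c, 0 ≤ c → c < p + r → (x - x % (p + r) + c) % (p + r) = c := by
    intro c c0 c1
    have h3 := Int.emod_add_mul_ediv x (p + r)
    rw [show x - x % (p + r) + c = c + (p + r) * (x / (p + r)) by linarith,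
      Int.add_mul_emod_self_left]
    exact Int.emod_eq_of_lt c0 c1
  have e2 : ∀ c, 0 ≤ c → c < p → (x - x % p + c) % p = c := by
    intro c c0 c1
    have h3 := Int.emod_add_mul_ediv x p
    rw [show x - x % p + c = c + p * (x / p) by linarith, Int.add_mul_emod_self_left]
    exact Int.emod_eq_of_lt c0 c1
  have ht5 : t = 0 ∨ t = 1 ∨ t = 2 ∨ t = 3 ∨ t = 4 := by omega
  rcases ht5 with rfl | rfl | rfl | rfl | rfl
  · rcases lt_or_ge (x % (p + r)) p with h | h
    · refine ⟨x - x % (p + r) + 0, true, true, Or.inl ⟨rfl, rfl, Or.inl ⟨rfl, e1 0 le_rfl hk⟩⟩,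
        by omega, by simp only [len, if_true]; omega⟩
    · refine ⟨x - x % (p + r) + p, false, true,
        Or.inl ⟨rfl, rfl, Or.inr ⟨rfl, e1 p hp.le (by omega)⟩⟩, by omega, by
        simp only [len, Bool.false_eq_true, if_false]; omega⟩
  · rcases lt_or_ge (x % (p + r)) r with h | h
    · refine ⟨x - x % (p + r) + 0, false, false,
        Or.inr (Or.inl ⟨rfl, rfl, Or.inl ⟨rfl, e1 0 le_rfl hk⟩⟩), by omega, by
        simp only [len, Bool.false_eq_true, if_false]; omega⟩
    · refine ⟨x - x % (p + r) + r, true, false,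
        Or.inr (Or.inl ⟨rfl, rfl, Or.inr ⟨rfl, e1 r hr.le (by omega)⟩⟩), by omega, by
        simp only [len, if_true]; omega⟩
  · exact ⟨x - x % p + 0, true, true, Or.inr (Or.inr (Or.inl ⟨rfl, rfl, rfl, e2 0 le_rfl hp⟩)),
      by omega, by simp only [len, if_true]; omega⟩
  · have := h2 (by norm_num)
    rcases lt_or_ge (x % p) r with h | h
    · exact ⟨x - x % p + 0, false, false,
        Or.inr (Or.inr (Or.inr (Or.inl ⟨rfl, rfl, Or.inl ⟨rfl, e2 0 le_rfl hp⟩⟩))),
        by omega, by simp only [len, Bool.false_eq_true, if_false]; omega⟩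
    · exact ⟨x - x % p + r, false, true,
        Or.inr (Or.inr (Or.inr (Or.inl ⟨rfl, rfl, Or.inr ⟨rfl, e2 r hr.le (by omega)⟩⟩))),
        by omega, by simp only [len, Bool.false_eq_true, if_false]; omega⟩
  · exact ⟨x - x % p + 0, true, false,
      Or.inr (Or.inr (Or.inr (Or.inr ⟨rfl, rfl, rfl, e2 0 le_rfl hp⟩))),
      by omega, by simp only [len, if_true]; omega⟩

theorem pat_uniq {p r t : ℤ} (hr : 0 < r) (hp : 0 < p) (h2 : 2 ≤ t → p = 2 * r)
    {x y y' : ℤ} {s u s' u' : Bool} (h : pat p r t y s u) (h' : pat p r t y' s' u')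
    (a1 : y ≤ x) (a2 : x < y + len p r s) (b1 : y' ≤ x) (b2 : x < y' + len p r s') :
    y = y' ∧ s = s' ∧ u = u' := by
  have hk : 0 < p + r := by omega
  have key : ∀ {M c c' l l' : ℤ}, 0 < M → y % M = c → y' % M = c' → c + l ≤ M → c' + l' ≤ M →
      x < y + l → x < y' + l' → c + (x - y) = c' + (x - y') ∧ y / M = y' / M := by
    intro M c c' l l' hM hy hy' hc hc' g g'
    have e1 := cellmod hM hy hc a1 g
    have e2 := cellmod hM hy' hc' b1 g'
    exact ⟨e1.2.symm.trans e2.2, e1.1.symm.trans e2.1⟩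
  have eqy : ∀ {M : ℤ}, y % M = y' % M → y / M = y' / M → y = y' := by
    intro M e1 e2
    have f1 := Int.emod_add_mul_ediv y M
    have f2 := Int.emod_add_mul_ediv y' M
    rw [e1, e2] at f1
    linarith
  rcases h with ⟨ht, hu, hs⟩ | ⟨ht, hu, hs⟩ | ⟨ht, hu, hs, hm⟩ | ⟨ht, hs, hu⟩ | ⟨ht, hu, hs, hm⟩
  · subst ht
    rcases h' with ⟨-, hu', hs'⟩ | ⟨h3, -⟩ | ⟨h3, -⟩ | ⟨h3, -⟩ | ⟨h3, -⟩
    · subst hu
      subst hu'
      rcases hs with ⟨rfl, hm⟩ | ⟨rfl, hm⟩ <;> rcases hs' with ⟨rfl, hm'⟩ | ⟨rfl, hm'⟩ <;>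
        simp only [len, Bool.false_eq_true, if_false, if_true] at a2 b2
      · have := key hk hm hm' (l := p) (l' := p) (by omega) (by omega) a2 b2
        exact ⟨eqy (hm.trans hm'.symm) this.2, rfl, rfl⟩
      · have := key hk hm hm' (l := p) (l' := r) (by omega) (by omega) a2 b2
        omega
      · have := key hk hm hm' (l := r) (l' := p) (by omega) (by omega) a2 b2
        omega
      · have := key hk hm hm' (l := r) (l' := r) (by omega) (by omega) a2 b2
        exact ⟨eqy (hm.trans hm'.symm) this.2, rfl, rfl⟩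
    all_goals omega
  · subst ht
    rcases h' with ⟨h3, -⟩ | ⟨-, hu', hs'⟩ | ⟨h3, -⟩ | ⟨h3, -⟩ | ⟨h3, -⟩
    · omega
    · subst hu
      subst hu'
      rcases hs with ⟨rfl, hm⟩ | ⟨rfl, hm⟩ <;> rcases hs' with ⟨rfl, hm'⟩ | ⟨rfl, hm'⟩ <;>
        simp only [len, Bool.false_eq_true, if_false, if_true] at a2 b2
      · have := key hk hm hm' (l := r) (l' := r) (by omega) (by omega) a2 b2
        exact ⟨eqy (hm.trans hm'.symm) this.2, rfl, rfl⟩
      · have := key hk hm hm' (l := r) (l' := p) (by omega) (by omega) a2 b2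
        omega
      · have := key hk hm hm' (l := p) (l' := r) (by omega) (by omega) a2 b2
        omega
      · have := key hk hm hm' (l := p) (l' := p) (by omega) (by omega) a2 b2
        exact ⟨eqy (hm.trans hm'.symm) this.2, rfl, rfl⟩
    all_goals omega
  · subst ht
    rcases h' with ⟨h3, -⟩ | ⟨h3, -⟩ | ⟨-, hu', hs', hm'⟩ | ⟨h3, -⟩ | ⟨h3, -⟩
    · omega
    · omega
    · subst hu
      subst hu'
      subst hs
      subst hs'
      simp only [len, if_true] at a2 b2
      have := key hp hm hm' (l := p) (l' := p) (by omega) (by omega) a2 b2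
      exact ⟨eqy (hm.trans hm'.symm) this.2, rfl, rfl⟩
    all_goals omega
  · subst ht
    have hpr := h2 (by norm_num)
    rcases h' with ⟨h3, -⟩ | ⟨h3, -⟩ | ⟨h3, -⟩ | ⟨-, hs', hu'⟩ | ⟨h3, -⟩
    · omega
    · omega
    · omega
    · subst hs
      subst hs'
      simp only [len, Bool.false_eq_true, if_false] at a2 b2
      rcases hu with ⟨rfl, hm⟩ | ⟨rfl, hm⟩ <;> rcases hu' with ⟨rfl, hm'⟩ | ⟨rfl, hm'⟩
      · have := key hp hm hm' (l := r) (l' := r) (by omega) (by omega) a2 b2
        exact ⟨eqy (hm.trans hm'.symm) this.2, rfl, rfl⟩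
      · have := key hp hm hm' (l := r) (l' := r) (by omega) (by omega) a2 b2
        omega
      · have := key hp hm hm' (l := r) (l' := r) (by omega) (by omega) a2 b2
        omega
      · have := key hp hm hm' (l := r) (l' := r) (by omega) (by omega) a2 b2
        exact ⟨eqy (hm.trans hm'.symm) this.2, rfl, rfl⟩
    · omega
  · subst ht
    rcases h' with ⟨h3, -⟩ | ⟨h3, -⟩ | ⟨h3, -⟩ | ⟨h3, -⟩ | ⟨-, hu', hs', hm'⟩
    · omega
    · omega
    · omega
    · omega
    · subst hu
      subst hu'
      subst hs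
      subst hs'
      simp only [len, if_true] at a2 b2
      have := key hp hm hm' (l := p) (l' := p) (by omega) (by omega) a2 b2
      exact ⟨eqy (hm.trans hm'.symm) this.2, rfl, rfl⟩

/-- partners: `t` is the type of a row, `t'` the type of the row above -/
theorem pat_pr {p r t t' : ℤ} (hr : 0 < r) (hrp : r ≤ p) (h2 : 2 ≤ t → t ≠ 4 → p = 2 * r)
    (ht : 0 ≤ t) (ht4 : t ≤ 4) (h0 : t = 0 → t' = 1) (h3 : t = 2 → t' = 3) (h4 : t = 3 → t' = 4)
    (h1 : t = 1 ∨ t = 4 → t' = 0 ∨ t' = 2) (x : ℤ) (s : Bool) :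
    pat p r t x s true ↔ pat p r t' (x - off p r s) (!s) false := by
  have hk : 0 < p + r := by omega
  have ht5 : t = 0 ∨ t = 1 ∨ t = 2 ∨ t = 3 ∨ t = 4 := by omega
  rcases ht5 with rfl | rfl | rfl | rfl | rfl
  · rw [h0 rfl]
    unfold pat off
    cases s
    · have := emod_shift (M := p + r) (x := x) (a := p - r) (b := r) hk hr.le (by omega)
        (by omega) (by omega)
      rw [show r + (p - r) = p by ring] at this
      simp [this]
    · simp
  · rcases h1 (Or.inl rfl) with h | h <;> rw [h] <;> unfold pat <;> cases s <;> simp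
  · rw [h3 rfl]
    unfold pat off
    cases s <;> simp
  · rw [h4 rfl]
    have hp := h2 (by norm_num) (by norm_num)
    unfold pat off
    cases s
    · have := emod_shift (M := p) (x := x) (a := p - r) (b := 0) (by omega) le_rfl (by omega)
        (by omega) (by omega)
      rw [show 0 + (p - r) = r by omega] at this
      simp [this]
    · simp
  · rcases h1 (Or.inr rfl) with h | h <;> rw [h] <;> unfold pat <;> cases s <;> simp

/-- rows from a periodic sequence of types -/
theorem rows_of_ty {p r d e : ℤ} (hr : 0 < r) (hrp : r ≤ p) (hd0 : 0 < d) (ty : ℤ → ℤ)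
    (ht : ∀ j, 0 ≤ ty j ∧ ty j ≤ 4) (hper : ∀ j, ty (j - d) = ty j)
    (h2 : ∀ j, 2 ≤ ty j → p = 2 * r)
    (h0 : ∀ j, ty j = 0 → ty (j + 1) = 1) (h3 : ∀ j, ty j = 2 → ty (j + 1) = 3)
    (h4 : ∀ j, ty j = 3 → ty (j + 1) = 4) (h1 : ∀ j, ty j = 1 ∨ ty j = 4 → ty (j + 1) = 0 ∨
      ty (j + 1) = 2)
    (hdiv : ∀ j, ty j = 0 ∨ ty j = 2 ∨ ty j = 3 → (j + 1) / d = j / d) :
    Rows p r d e (fun x j s u => pat p r (ty j) (x + j / d * e) s u) := by
  have hp : 0 < p := by omega
  refine ⟨?_, ?_, ?_, ?_⟩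
  · intro x j
    obtain ⟨y, s, u, a, b, c⟩ := pat_cov hr hp (ht j).1 (ht j).2 (h2 j) (x + j / d * e)
    refine ⟨y - j / d * e, s, u, ?_, by omega, by omega⟩
    show pat p r (ty j) (y - j / d * e + j / d * e) s u
    rwa [sub_add_cancel]
  · intro x j y s u y' s' u' a b c1 c2 c3 c4
    obtain ⟨e1, e2, e3⟩ := pat_uniq hr hp (h2 j) (x := x + j / d * e) a b (by omega) (by omega)
      (by omega) (by omega)
    exact ⟨by omega, e2, e3⟩
  · intro x j s
    show pat p r (ty j) (x + j / d * e) s true ↔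
      pat p r (ty (j + 1)) (x - off p r s + (j + 1) / d * e) (!s) false
    have hpr := pat_pr hr hrp (t := ty j) (t' := ty (j + 1)) (fun h _ => h2 j h) (ht j).1 (ht j).2
      (h0 j) (h3 j) (h4 j) (h1 j)
    by_cases hc : ty j = 0 ∨ ty j = 2 ∨ ty j = 3
    · rw [hdiv j hc, hpr, show x - off p r s + j / d * e = x + j / d * e - off p r s by ring]
    · have hc' : ty j = 1 ∨ ty j = 4 := by
        have := ht j
        omega
      have hl : ¬ pat p r (ty j) (x + j / d * e) s true := by
        rcases hc' with h | h <;> rw [h] <;> unfold pat <;> simp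
      have hr' : ¬ pat p r (ty (j + 1)) (x - off p r s + (j + 1) / d * e) (!s) false := by
        rcases h1 j hc' with h | h <;> rw [h] <;> unfold pat <;> simp
      exact ⟨fun h => absurd h hl, fun h => absurd h hr'⟩
  · intro x j s u
    show pat p r (ty (j - d)) (x + e + (j - d) / d * e) s u ↔ pat p r (ty j) (x + j / d * e) s u
    have : (j - d) / d = j / d - 1 := by
      rw [show j - d = j + (-1) * d by ring, Int.add_mul_ediv_right _ _ (by omega)]; ring
    rw [this, hper, show x + e + (j / d - 1) * e = x + j / d * e by ring]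

theorem ediv_succ {d j : ℤ} (hd0 : 0 < d) (h : j % d + 1 < d) :
    (j + 1) / d = j / d ∧ (j + 1) % d = j % d + 1 := by
  have h1 := Int.emod_add_mul_ediv j d
  have h2 : 0 ≤ j % d := Int.emod_nonneg _ hd0.ne'
  have e : j + 1 = (j % d + 1) + d * (j / d) := by linarith
  constructor
  · conv_lhs => rw [e]
    rw [Int.add_mul_ediv_left _ _ hd0.ne', Int.ediv_eq_zero_of_lt (by omega) h, zero_add]
  · conv_lhs => rw [e]
    rw [Int.add_mul_emod_self_left]
    exact Int.emod_eq_of_lt (by omega) h

theorem emod_last {d j : ℤ} (hd0 : 0 < d) (h : j % d = d - 1) : (j + 1) % d = 0 := by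
  have h1 := Int.emod_add_mul_ediv j d
  rw [show j + 1 = d * (j / d + 1) by rw [h] at h1; linarith, Int.mul_emod_right]

/-- two rows at a time -/
theorem suff_even {p r d e : ℤ} (hr : 0 < r) (hrp : r ≤ p) (hd0 : 0 < d) (hde : IsCoprime d e)
    (hd : d % 2 = 0) : ∃ P Q, PQ (Tl p r d e) P Q := by
  refine pq_of_rows hd0 hde (rows_of_ty hr hrp hd0 (fun j => (j % d) % 2) ?_ ?_ ?_ ?_ ?_ ?_ ?_ ?_)
  · intro j; show 0 ≤ (j % d) % 2 ∧ (j % d) % 2 ≤ 4; omega
  · intro j; show ((j - d) % d) % 2 = (j % d) % 2; rw [Int.sub_emod_right]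
  · intro j h; omega
  · intro j h
    have h2 : 0 ≤ j % d := Int.emod_nonneg _ hd0.ne'
    have h3 : j % d < d := Int.emod_lt_of_pos _ hd0
    rw [(ediv_succ hd0 (by omega)).2]; omega
  · intro j h; omega
  · intro j h; omega
  · intro j h
    left
    have h2 : 0 ≤ j % d := Int.emod_nonneg _ hd0.ne'
    have h3 : j % d < d := Int.emod_lt_of_pos _ hd0
    rcases lt_or_ge (j % d + 1) d with h5 | h5
    · rw [(ediv_succ hd0 h5).2]; omega
    · rw [emod_last hd0 (by omega)]; rfl
  · intro j h
    have h2 : 0 ≤ j % d := Int.emod_nonneg _ hd0.ne'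
    have h3 : j % d < d := Int.emod_lt_of_pos _ hd0
    exact (ediv_succ hd0 (by omega)).1

/-- `p = 2 r`, `d ≥ 3` odd: one strip of three rows and strips of two rows -/
theorem suff_two_odd {p r d e : ℤ} (hr : 0 < r) (hp : p = 2 * r) (hd3 : 3 ≤ d)
    (hde : IsCoprime d e) (hd : d % 2 = 1) : ∃ P Q, PQ (Tl p r d e) P Q := by
  have hd0 : 0 < d := by omega
  obtain ⟨ty, hty⟩ : ∃ ty : ℤ → ℤ, ∀ j, ty j = if j % d < 3 then j % d + 2 else (j % d + 1) % 2 :=
    ⟨_, fun j => rfl⟩
  have hm : ∀ j, 0 ≤ j % d ∧ j % d < d := fun j =>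
    ⟨Int.emod_nonneg _ hd0.ne', Int.emod_lt_of_pos _ hd0⟩
  refine pq_of_rows hd0 hde (rows_of_ty hr (by omega) hd0 ty ?_ ?_ (fun _ _ => hp) ?_ ?_ ?_ ?_ ?_)
  · intro j
    have := hm j
    rw [hty]; split_ifs <;> omega
  · intro j; rw [hty, hty, Int.sub_emod_right]
  · intro j h
    have := hm j
    rw [hty] at h ⊢
    split_ifs at h
    · omega
    · rw [(ediv_succ hd0 (by omega)).2]; split_ifs <;> omega
  · intro j h
    have := hm j
    rw [hty] at h ⊢
    split_ifs at h
    · rw [(ediv_succ hd0 (by omega)).2]; split_ifs <;> omega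
    · omega
  · intro j h
    have := hm j
    rw [hty] at h ⊢
    split_ifs at h
    · rw [(ediv_succ hd0 (by omega)).2]; split_ifs <;> omega
    · omega
  · intro j h
    have := hm j
    rw [hty] at h
    rw [hty]
    rcases lt_or_ge (j % d + 1) d with h5 | h5
    · rw [(ediv_succ hd0 h5).2]; split_ifs at h ⊢ <;> omega
    · rw [emod_last hd0 (by omega)]; simp
  · intro j h
    have := hm j
    rw [hty] at h
    refine (ediv_succ hd0 ?_).1
    split_ifs at h <;> omega

end MPae024f.TP
end

section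
/-! Residues of the items modulo `r` when `r ∣ p`; scaling; the cases `p = r`, `p = 2 r`,
`p = 3 r`. -/
namespace MPae024f.TP

variable {p r d e T : ℤ} {it : ℤ → ℤ → Bool → Bool → Prop}

namespace Rows

theorem len_pos0 (hr : 0 < r) (hp : 0 < p) (s : Bool) : 0 < len p r s := by
  cases s <;> simp [len, hr, hp]

theorem disj0 (h : Rows p r d e it) (hr : 0 < r) (hp : 0 < p) {j y y' : ℤ} {s u s' u' : Bool}
    (h1 : it y j s u) (h2 : it y' j s' u') (h3 : y ≤ y') (h4 : y' < y + len p r s) :
    y = y' ∧ s = s' ∧ u = u' :=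
  h.uniq y' j y s u y' s' u' h1 h2 h3 h4 le_rfl (by have := len_pos0 hr hp s'; omega)

theorem nxt0 (h : Rows p r d e it) (hr : 0 < r) (hp : 0 < p) {j y : ℤ} {s u : Bool}
    (h1 : it y j s u) : ∃ s' u', it (y + len p r s) j s' u' := by
  obtain ⟨z, s', u', hz, h2, h3⟩ := h.cov (y + len p r s) j
  have hl := len_pos0 hr hp s
  rcases lt_or_eq_of_le h2 with h4 | h4
  · exfalso
    rcases le_or_gt y z with h5 | h5
    · obtain ⟨h6, h7, -⟩ := h.disj0 hr hp h1 hz h5 h4
      rw [← h6, ← h7] at h3; omega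
    · have := h.disj0 hr hp hz h1 h5.le (by omega)
      omega
  · exact ⟨s', u', by rw [← h4]; exact hz⟩

theorem pr0 (h : Rows p r d e it) (x j : ℤ) (s : Bool) :
    it x j s false ↔ it (x + off p r (!s)) (j - 1) (!s) true := by
  rw [h.pr]
  rw [show x + off p r (!s) - off p r (!s) = x by ring, show j - 1 + 1 = j by ring, Bool.not_not]

theorem dvd_len (hrp : r ∣ p) (s : Bool) : r ∣ len p r s := by
  cases s
  · simp [len]
  · simpa [len] using hrp

theorem dvd_off (hrp : r ∣ p) (s : Bool) : r ∣ off p r s := by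
  cases s
  · simpa [off] using dvd_sub hrp (dvd_refl r)
  · simp [off]

/-- all items of a row start at the same residue -/
theorem cong (h : Rows p r d e it) (hr : 0 < r) (hp : 0 < p) (hrp : r ∣ p) {j x x' : ℤ}
    {s u s' u' : Bool} (h1 : it x j s u) (h2 : it x' j s' u') : r ∣ x' - x := by
  have key : ∀ n : ℕ, ∀ x x' s u s' u', it x j s u → it x' j s' u' → x ≤ x' → x' - x = n →
      r ∣ x' - x := by
    intro n
    induction n using Nat.strong_induction_on with
    | _ n ih =>
      intro x x' s u s' u' h1 h2 hle hn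
      rcases eq_or_lt_of_le hle with h3 | h3
      · rw [h3, sub_self]; exact dvd_zero r
      · have hl := len_pos0 (s := s) hr hp
        obtain ⟨s2, u2, h4⟩ := h.nxt0 hr hp h1
        have h5 : x + len p r s ≤ x' := by
          by_contra hcon
          have := h.disj0 hr hp h1 h2 hle (by omega)
          omega
        have h6 := ih (x' - (x + len p r s)).toNat (by omega) _ _ _ _ _ _ h4 h2 h5 (by omega)
        have h7 := dvd_add h6 (dvd_len hrp s)
        rwa [show x' - (x + len p r s) + len p r s = x' - x by ring] at h7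
  rcases le_total x x' with h3 | h3
  · exact key (x' - x).toNat x x' s u s' u' h1 h2 h3 (by omega)
  · have := key (x - x').toNat x' x s' u' s u h2 h1 h3 (by omega)
    rw [← dvd_neg, neg_sub]; exact this

/-- `d = 1` -/
theorem dvd_e_one (h : Rows p r 1 e it) (hr : 0 < r) (hp : 0 < p) (hrp : r ∣ p) : r ∣ e := by
  obtain ⟨x, s, u, hx, -, -⟩ := h.cov 0 0
  cases u
  · have h1 := (h.pr0 _ _ _).1 hx
    have h2 := (h.sh (x + off p r (!s) - e) 0 (!s) true).1 (by
      rw [show x + off p r (!s) - e + e = x + off p r (!s) by ring]; exact h1)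
    have h3 := h.cong hr hp hrp hx h2
    have h4 := dvd_sub (dvd_off hrp (!s)) h3
    rwa [show off p r (!s) - (x + off p r (!s) - e - x) = e by ring] at h4
  · have h1 := (h.pr _ _ _).1 hx
    have h2 := (h.sh _ _ _ _).2 h1
    rw [show (0 : ℤ) + 1 - 1 = 0 by ring] at h2
    have h3 := h.cong hr hp hrp hx h2
    have h4 := dvd_add h3 (dvd_off hrp s)
    rwa [show x - off p r s + e - x + off p r s = e by ring] at h4

/-- all items start at the same residue, if every row has an item matched upwards -/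
theorem resid (h : Rows p r d e it) (hr : 0 < r) (hp : 0 < p) (hrp : r ∣ p)
    (hmix : ∀ j, ∃ x s, it x j s true) : ∃ b, ∀ j x s u, it x j s u → r ∣ x - b := by
  obtain ⟨b, s0, u0, hb, -, -⟩ := h.cov 0 0
  have hstep : ∀ j, (∀ x s u, it x j s u → r ∣ x - b) ↔ (∀ x s u, it x (j + 1) s u → r ∣ x - b) := by
    intro j
    obtain ⟨x, s, hx⟩ := hmix j
    have hx' := (h.pr _ _ _).1 hx
    constructor
    · intro ha y s' u' hy
      have h1 := ha _ _ _ hx
      have h2 := h.cong hr hp hrp hx' hy
      have h3 := dvd_sub (dvd_add h2 h1) (dvd_off hrp s)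
      rwa [show y - (x - off p r s) + (x - b) - off p r s = y - b by ring] at h3
    · intro ha y s' u' hy
      have h1 := ha _ _ _ hx'
      have h2 := h.cong hr hp hrp hx hy
      have h3 := dvd_add (dvd_add h2 h1) (dvd_off hrp s)
      rwa [show y - x + (x - off p r s - b) + off p r s = y - b by ring] at h3
  refine ⟨b, fun j => ?_⟩
  induction j using Int.induction_on with
  | zero => intro x s u hx; exact h.cong hr hp hrp hb hx
  | succ n ih => exact (hstep n).1 ih
  | pred n ih =>
    refine (hstep _).2 ?_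
    rw [show -(n : ℤ) - 1 + 1 = -n by ring]; exact ih

theorem dvd_e_of_resid (h : Rows p r d e it) {b : ℤ} (hb : ∀ j x s u, it x j s u → r ∣ x - b) :
    r ∣ e := by
  obtain ⟨x, s, u, hx, -, -⟩ := h.cov 0 0
  have h1 := hb _ _ _ _ hx
  have h2 := hb _ _ _ _ ((h.sh _ _ _ _).2 hx)
  have h3 := dvd_sub h2 h1
  rwa [show x + e - b - (x - b) = e by ring] at h3

theorem resid_one (h : Rows p r 1 e it) (hr : 0 < r) (hp : 0 < p) (hrp : r ∣ p) :
    ∃ b, ∀ j x s u, it x j s u → r ∣ x - b := by
  have he := h.dvd_e_one hr hp hrp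
  obtain ⟨b, s0, u0, hb, -, -⟩ := h.cov 0 0
  refine ⟨b, fun j x s u hx => ?_⟩
  have h1 := (h.shz j x j s u).2 hx
  rw [show j - j * 1 = 0 by ring] at h1
  have h2 := h.cong hr hp hrp hb h1
  have h3 := dvd_sub h2 (dvd_mul_of_dvd_right he j)
  rwa [show x + j * e - b - j * e = x - b by ring] at h3

/-- blow down -/
theorem down {p' : ℤ} (hp : p = r * p') (h : Rows p r d (r * e) it) (hr : 0 < r) {b : ℤ}
    (hb : ∀ j x s u, it x j s u → r ∣ x - b) :
    Rows p' 1 d e (fun x j s u => it (r * x + b) j s u) := by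
  have hlen : ∀ s, len p r s = r * len p' 1 s := by intro s; cases s <;> simp [len, hp]
  have hoff : ∀ s, off p r s = r * off p' 1 s := by
    intro s; cases s
    · simp only [off, Bool.false_eq_true, if_false, hp]; ring
    · simp [off]
  refine ⟨?_, ?_, ?_, ?_⟩
  · intro x j
    obtain ⟨y, s, u, hy, h1, h2⟩ := h.cov (r * x + b) j
    obtain ⟨y', hy'⟩ := hb _ _ _ _ hy
    have e1 : y = r * y' + b := by linarith
    rw [e1] at hy h1 h2
    refine ⟨y', s, u, hy, ?_, ?_⟩
    · have : r * y' ≤ r * x := by linarith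
      exact le_of_mul_le_mul_left this hr
    · rw [hlen] at h2
      have : r * x < r * (y' + len p' 1 s) := by linarith
      exact lt_of_mul_lt_mul_left this hr.le
  · intro x j y s u y' s' u' h1 h2 a1 a2 b1 b2
    have c1 : r * y ≤ r * x := mul_le_mul_of_nonneg_left a1 hr.le
    have c2 : r * x < r * (y + len p' 1 s) := mul_lt_mul_of_pos_left a2 hr
    have c3 : r * y' ≤ r * x := mul_le_mul_of_nonneg_left b1 hr.le
    have c4 : r * x < r * (y' + len p' 1 s') := mul_lt_mul_of_pos_left b2 hr
    obtain ⟨e1, e2, e3⟩ := h.uniq (r * x + b) j _ _ _ _ _ _ h1 h2 (by linarith)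
      (by rw [hlen]; linarith) (by linarith) (by rw [hlen]; linarith)
    refine ⟨mul_left_cancel₀ hr.ne' (by linarith), e2, e3⟩
  · intro x j s
    show it (r * x + b) j s true ↔ it (r * (x - off p' 1 s) + b) (j + 1) (!s) false
    rw [h.pr, hoff, show r * x + b - r * off p' 1 s = r * (x - off p' 1 s) + b by ring]
  · intro x j s u
    show it (r * (x + e) + b) (j - d) s u ↔ it (r * x + b) j s u
    rw [show r * (x + e) + b = r * x + b + r * e by ring]
    exact h.sh _ _ _ _

/-- blow up -/
theorem up {p' : ℤ} (hp : p = r * p') (h : Rows p' 1 d e it) (hr : 0 < r) :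
    Rows p r d (r * e) (fun x j s u => r ∣ x ∧ it (x / r) j s u) := by
  have hlen : ∀ s, len p r s = r * len p' 1 s := by intro s; cases s <;> simp [len, hp]
  have hoff : ∀ s, off p r s = r * off p' 1 s := by
    intro s; cases s
    · simp only [off, Bool.false_eq_true, if_false, hp]; ring
    · simp [off]
  have hq : ∀ y x l : ℤ, (r * y ≤ x ∧ x < r * y + r * l) ↔ (y ≤ x / r ∧ x / r < y + l) := by
    intro y x l
    rw [Int.le_ediv_iff_mul_le hr, Int.ediv_lt_iff_lt_mul hr, mul_comm y r,
      show (y + l) * r = r * y + r * l by ring]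
  refine ⟨?_, ?_, ?_, ?_⟩
  · intro x j
    obtain ⟨y, s, u, hy, h1, h2⟩ := h.cov (x / r) j
    have h3 := (hq y x (len p' 1 s)).2 ⟨h1, h2⟩
    refine ⟨r * y, s, u, ⟨dvd_mul_right r y, ?_⟩, h3.1, by rw [hlen]; exact h3.2⟩
    rwa [Int.mul_ediv_cancel_left _ hr.ne']
  · rintro x j y s u y' s' u' ⟨⟨z, rfl⟩, h1⟩ ⟨⟨z', rfl⟩, h2⟩ a1 a2 b1 b2
    rw [Int.mul_ediv_cancel_left _ hr.ne'] at h1 h2
    rw [hlen] at a2 b2
    have c1 := (hq z x _).1 ⟨a1, a2⟩
    have c2 := (hq z' x _).1 ⟨b1, b2⟩
    obtain ⟨e1, e2, e3⟩ := h.uniq (x / r) j _ _ _ _ _ _ h1 h2 c1.1 c1.2 c2.1 c2.2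
    exact ⟨by rw [e1], e2, e3⟩
  · intro x j s
    show (r ∣ x ∧ it (x / r) j s true) ↔
      (r ∣ x - off p r s ∧ it ((x - off p r s) / r) (j + 1) (!s) false)
    rw [hoff]
    constructor
    · rintro ⟨⟨z, rfl⟩, h1⟩
      rw [Int.mul_ediv_cancel_left _ hr.ne', h.pr] at h1
      rw [← mul_sub, Int.mul_ediv_cancel_left _ hr.ne']
      exact ⟨dvd_mul_right _ _, h1⟩
    · rintro ⟨h0, h1⟩
      obtain ⟨z, rfl⟩ : r ∣ x := by
        have := dvd_add h0 (dvd_mul_right r (off p' 1 s))
        rwa [sub_add_cancel] at this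
      rw [← mul_sub, Int.mul_ediv_cancel_left _ hr.ne'] at h1
      rw [Int.mul_ediv_cancel_left _ hr.ne', h.pr]
      exact ⟨dvd_mul_right _ _, h1⟩
  · intro x j s u
    show (r ∣ x + r * e ∧ it ((x + r * e) / r) (j - d) s u) ↔ (r ∣ x ∧ it (x / r) j s u)
    rw [Int.add_mul_ediv_left _ _ hr.ne', h.sh]
    constructor
    · rintro ⟨h0, h1⟩
      refine ⟨?_, h1⟩
      have := dvd_sub h0 (dvd_mul_right r e)
      rwa [add_sub_cancel_right] at this
    · rintro ⟨h0, h1⟩
      exact ⟨dvd_add h0 (dvd_mul_right r e), h1⟩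

end Rows

/-! ### `p = 3`, `r = 1`: four points -/

theorem tl31 (d e : ℤ) : Tl 3 1 d e = {d - d, d, d + d, e} := by
  ext x
  simp only [Tl, Set.mem_setOf_eq, Set.mem_insert_iff, Set.mem_singleton_iff]
  constructor
  · rintro (⟨i, h0, h1, rfl⟩ | ⟨i, h0, h1, rfl⟩)
    · have : i = 0 ∨ i = 1 ∨ i = 2 := by omega
      rcases this with rfl | rfl | rfl
      · left; ring
      · right; left; ring
      · right; right; left; ring
    · have : i = 0 := by omega
      subst this
      right; right; right; ring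
  · rintro (rfl | rfl | rfl | rfl)
    · exact Or.inl ⟨0, by norm_num, by norm_num, by ring⟩
    · exact Or.inl ⟨1, by norm_num, by norm_num, by ring⟩
    · exact Or.inl ⟨2, by norm_num, by norm_num, by ring⟩
    · exact Or.inr ⟨0, by norm_num, by norm_num, by ring⟩

/-- the theorem on four points, in terms of translation sets -/
theorem four {d e : ℤ} (hd0 : 0 < d) (h0 : e ≠ 0) (h1 : e ≠ d) (h2 : e ≠ 2 * d) :
    (∃ P Q, PQ (Tl 3 1 d e) P Q) ↔
      ¬ (e = -(7 * d) ∨ e = -(3 * d) ∨ e = 5 * d ∨ e = 9 * d) := by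
  have hq := quad_result d d e (by omega) (by omega) (by omega) (by omega)
  have hfin : (Tl 3 1 d e).Finite := by
    rw [tl31]; exact Set.toFinite _
  have hne : (Tl 3 1 d e).Nonempty := ⟨e, by rw [tl31]; simp⟩
  have h3 : (∃ P Q, PQ (Tl 3 1 d e) P Q) ↔ FMT {d - d, d, d + d, e} := by
    rw [← tl31]
    exact ⟨fun ⟨P, Q, h⟩ => partition_of_pq hne h, fun h => pq_of_partition hfin hne h⟩
  rw [h3, hq]
  constructor
  · intro h4 h5; apply h4; omega
  · intro h4 h5; apply h4; omega

/-- `p = 2 r`, `d = 1`: necessity -/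
theorem two_nec {r e : ℤ} (hr : 0 < r) (he : ∀ i i', 0 ≤ i → i < 2 * r → 0 ≤ i' → i' < r →
    1 * i ≠ e + 1 * i') (h : ∃ P Q, PQ (Tl (2 * r) r 1 e) P Q) : r ∣ e := by
  obtain ⟨it, T, -, h1, -⟩ := exists_rows (by norm_num) hr.le (by omega) he h
  exact h1.dvd_e_one hr (by omega) (dvd_mul_left r 2)

/-- `p = 3 r`, `r ∣ e` and no exception: sufficiency -/
theorem three_suff {r d e : ℤ} (hr : 0 < r) (hd0 : 0 < d) (hde : IsCoprime d (r * e))
    (he : ∀ i i', 0 ≤ i → i < 3 * r → 0 ≤ i' → i' < r → d * i ≠ r * e + d * i')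
    (hex : ¬ (d = 1 ∧ (e = -7 ∨ e = -3 ∨ e = 5 ∨ e = 9))) :
    ∃ P Q, PQ (Tl (3 * r) r d (r * e)) P Q := by
  have hne : ∀ i, 0 ≤ i → i < 3 → e ≠ d * i := by
    intro i h0 h1 h2
    refine he (r * i) 0 (mul_nonneg hr.le h0) ?_ le_rfl hr ?_
    · rw [mul_comm 3 r]; exact mul_lt_mul_of_pos_left h1 hr
    · rw [h2]; ring
  have h0 := hne 0 le_rfl (by norm_num)
  have h1 := hne 1 (by norm_num) (by norm_num)
  have h2 := hne 2 (by norm_num) (by norm_num)
  have hcop : IsCoprime d e := hde.of_mul_right_right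
  have hdd : ∀ c : ℤ, e = c * d → d = 1 := by
    intro c hc
    obtain ⟨a, b, hab⟩ := hcop
    have : d ∣ 1 := ⟨a + b * c, by rw [← hab, hc]; ring⟩
    exact Int.eq_one_of_dvd_one hd0.le this
  have hf := (four hd0 (by simpa using h0) (by simpa using h1) (by rw [mul_comm]; exact h2)).2 (by
    rintro (h | h | h | h)
    · have hd1 := hdd (-7) (by linarith)
      exact hex ⟨hd1, Or.inl (by rw [hd1] at h; linarith)⟩
    · have hd1 := hdd (-3) (by linarith)
      exact hex ⟨hd1, Or.inr (Or.inl (by rw [hd1] at h; linarith))⟩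
    · have hd1 := hdd 5 (by linarith)
      exact hex ⟨hd1, Or.inr (Or.inr (Or.inl (by rw [hd1] at h; linarith)))⟩
    · have hd1 := hdd 9 (by linarith)
      exact hex ⟨hd1, Or.inr (Or.inr (Or.inr (by rw [hd1] at h; linarith)))⟩)
  obtain ⟨it, T, -, h3, -⟩ := exists_rows (p := 3) (r := 1) (e := e) hd0 (by norm_num) (by norm_num)
    (fun i i' a b c c' => by
      have : i' = 0 := by omega
      subst this
      rw [mul_zero, add_zero]
      exact fun h => hne i a b h.symm) hf
  exact pq_of_rows hd0 hde (h3.up (p := 3 * r) (r := r) (by ring) hr)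

/-- `p = 3 r`, `d = 1`: the exceptions do not tile -/
theorem three_exc {r e : ℤ} (hr : 0 < r)
    (he : ∀ i i', 0 ≤ i → i < 3 * r → 0 ≤ i' → i' < r → 1 * i ≠ r * e + 1 * i')
    (h : ∃ P Q, PQ (Tl (3 * r) r 1 (r * e)) P Q) :
    ¬ (e = -7 ∨ e = -3 ∨ e = 5 ∨ e = 9) := by
  have hne : ∀ i, 0 ≤ i → i < 3 → e ≠ 1 * i := by
    intro i h0 h1 h2
    refine he (r * i) 0 (mul_nonneg hr.le h0) ?_ le_rfl hr ?_
    · rw [mul_comm 3 r]; exact mul_lt_mul_of_pos_left h1 hr
    · rw [h2]; ring
  obtain ⟨it, T, -, h1, -⟩ := exists_rows (by norm_num) hr.le (by omega) he h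
  obtain ⟨b, hb⟩ := h1.resid_one hr (by omega) (dvd_mul_left r 3)
  have h2 := h1.down (p' := 3) (by ring) hr hb
  have h3 := pq_of_rows (by norm_num) isCoprime_one_left h2
  have h4 := (four (by norm_num) (by simpa using hne 0 le_rfl (by norm_num))
    (by simpa using hne 1 (by norm_num) (by norm_num))
    (by simpa using hne 2 (by norm_num) (by norm_num))).1 h3
  omega

end MPae024f.TP
end
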