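import Mathlib
import Pool.Agent.Lib.MP_ae024f_co.Suff
import Pool.Agent.Lib.MP_ae024f_co.TP.Lem

/-! The classification for `p = r`, `p = 2 r` and `p = 3 r`. -/

namespace MPae024f.TP

variable {p r d e T : ℤ} {it : ℤ → ℤ → Bool → Bool → Prop}

/-- two points and a third one -/
theorem tl21 (e : ℤ) : Tl 2 1 1 e = MPae024f.Tl 3 1 e := by
  ext x
  simp only [Tl, MPae024f.Tl, Set.mem_setOf_eq]
  constructor
  · rintro (⟨i, h0, h1, h2⟩ | ⟨i, h0, h1, h2⟩)
    · exact Or.inl ⟨i, h0, by omega, h2⟩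
    · right
      have : i = 0 := by omega
      rw [h2, this]; ring
  · rintro (⟨i, h0, h1, h2⟩ | h2)
    · exact Or.inl ⟨i, h0, by omega, h2⟩
    · exact Or.inr ⟨0, le_rfl, by norm_num, by rw [h2]; ring⟩

theorem two_one {e : ℤ} (h0 : e ≠ 0) (h1 : e ≠ 1) : ∃ P Q, PQ (Tl 2 1 1 e) P Q := by
  rw [tl21]
  have h3 : e % 3 = 0 ∨ e % 3 = 1 ∨ e % 3 = 2 := by omega
  rcases h3 with h3 | h3 | h3
  · exact suff_odd (q := e / 3) (g := 0) le_rfl one_pos isCoprime_one_left (by norm_num) le_rfl
      (by norm_num) (by omega) (by omega)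
  · exact suff_odd (q := (e + 2) / 3) (g := 1) le_rfl one_pos isCoprime_one_left (by norm_num)
      (by norm_num) le_rfl (by omega) (by omega)
  · exact suff_dvd le_rfl one_pos isCoprime_one_left (by omega)

theorem classify_two (hr : 1 ≤ r) (hd0 : 0 < d) (hde : IsCoprime d e)
    (he : ∀ i i', 0 ≤ i → i < 2 * r → 0 ≤ i' → i' < r → d * i ≠ e + d * i') :
    (∃ P Q, PQ (Tl (2 * r) r d e) P Q) ↔ (2 ≤ d ∨ r ∣ e) := by
  have key : 2 ≤ d → ∃ P Q, PQ (Tl (2 * r) r d e) P Q := by
    intro h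
    rcases Int.emod_two_eq_zero_or_one d with h2 | h2
    · exact TP.suff_even (by omega) (by omega) hd0 hde h2
    · exact suff_two_odd (by omega) rfl (by omega) hde h2
  rcases lt_or_ge d 2 with hd | hd
  · have hd1 : d = 1 := by omega
    subst hd1
    constructor
    · intro h; exact Or.inr (two_nec (by omega) he h)
    · rintro (h | ⟨e', rfl⟩)
      · omega
      · have h0 : e' ≠ 0 := by
          intro h0
          refine he 0 0 le_rfl (by omega) le_rfl (by omega) ?_
          rw [h0]; ring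
        have h1 : e' ≠ 1 := by
          intro h1
          refine he r 0 (by omega) (by omega) le_rfl (by omega) ?_
          rw [h1]; ring
        obtain ⟨it, T, -, h3, -⟩ := exists_rows (p := 2) (r := 1) (e := e') one_pos (by norm_num)
          (by norm_num) (fun i i' a b c c' => by omega) (two_one h0 h1)
        exact pq_of_rows one_pos hde (h3.up (p := 2 * r) (r := r) (by ring) (by omega))
  · exact ⟨fun _ => Or.inl hd, fun _ => key hd⟩

theorem classify_three (hr : 1 ≤ r) (hd0 : 0 < d) (hde : IsCoprime d e)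
    (he : ∀ i i', 0 ≤ i → i < 3 * r → 0 ≤ i' → i' < r → d * i ≠ e + d * i') :
    (∃ P Q, PQ (Tl (3 * r) r d e) P Q) ↔
      (2 ∣ d ∨ (r ∣ e ∧ ¬ (d = 1 ∧ (e = -7 * r ∨ e = -3 * r ∨ e = 5 * r ∨ e = 9 * r)))) := by
  have hr0 : 0 < r := by omega
  have hc : ∀ (a c : ℤ), r * a = c * r ↔ a = c := by
    intro a c
    constructor
    · intro h; exact mul_left_cancel₀ hr0.ne' (by linarith)
    · intro h; rw [h]; ring
  constructor
  · intro h
    rcases Int.emod_two_eq_zero_or_one d with h2 | h2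
    · exact Or.inl (Int.dvd_of_emod_eq_zero h2)
    · right
      obtain ⟨it, T, -, h1, -⟩ := exists_rows hd0 hr0.le (by omega) he h
      obtain ⟨b, hb⟩ := h1.resid hr0 (by omega) (dvd_mul_left r 3)
        (fun j => h1.mixed ⟨hr, by omega, by omega⟩ h2 hd0 true j)
      obtain ⟨e', rfl⟩ := h1.dvd_e_of_resid hb
      refine ⟨dvd_mul_right r e', ?_⟩
      rintro ⟨rfl, h5⟩
      apply three_exc hr0 he h
      rwa [hc, hc, hc, hc] at h5
  · rintro (h | ⟨⟨e', rfl⟩, h⟩)
    · exact TP.suff_even hr0 (by omega) hd0 hde (Int.emod_eq_zero_of_dvd h)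
    · refine three_suff hr0 hd0 hde he ?_
      rwa [hc, hc, hc, hc] at h

/-! ### `p = r` -/

namespace Rows

theorem down_up_eq (h : Rows r r d e it) (hr : 0 < r) {j : ℤ}
    (hA : ∀ x s u, it x j s u → u = false) : ∀ x s u, it x (j - 1) s u → u = true := by
  intro y s' u' hy
  obtain ⟨z, s, u, hz, h1, h2⟩ := h.cov y j
  obtain rfl := hA _ _ _ hz
  have h3 := (h.pr0 _ _ _).1 hz
  have h4 : off r r (!s) = 0 := by cases s <;> simp [off]
  have h5 : ∀ s, len r r s = r := by intro s; cases s <;> simp [len]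
  rw [h4, add_zero] at h3
  exact (h.disj0 hr hr h3 hy h1 (by rw [h5]; rw [h5] at h2; exact h2)).2.2.symm

theorem up_down_eq (h : Rows r r d e it) {j : ℤ}
    (hA : ∀ x s u, it x j s u → u = true) : ∀ x s u, it x (j - 1) s u → u = false := by
  intro y s u hy
  cases u
  · rfl
  · rw [h.pr, show j - 1 + 1 = j by ring] at hy
    exact absurd (hA _ _ _ hy) (by simp)

theorem mixed_eq (h : Rows r r d e it) (hr : 0 < r) (hd : d % 2 = 1) (hd0 : 0 < d) (j : ℤ) :
    ∃ x s, it x j s true := by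
  by_contra hcon
  have hA : ∀ x s u, it x j s u → u = false := by
    intro x s u hx
    cases u
    · rfl
    · exact absurd ⟨x, s, hx⟩ hcon
  have h2 : ∀ n : ℕ, ∀ x s u, it x (j - 2 * n) s u → u = false := by
    intro n
    induction n with
    | zero => simpa using hA
    | succ n ih =>
      push_cast
      rw [show j - 2 * ((n : ℤ) + 1) = j - 2 * n - 1 - 1 by ring]
      exact h.up_down_eq (h.down_up_eq hr ih)
  have h1 := h.down_up_eq hr (h2 (d / 2).toNat)
  rw [show j - 2 * (((d / 2).toNat : ℕ) : ℤ) - 1 = j - d by omega] at h1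
  obtain ⟨y, s, u, hy, -, -⟩ := h.cov 0 j
  have h3 := hA _ _ _ hy
  have h4 := h1 _ _ _ ((h.sh _ _ _ _).2 hy)
  rw [h3] at h4
  simp at h4

end Rows

/-- two points tile -/
theorem one_one {d e : ℤ} (h0 : e ≠ 0) : ∃ P Q, PQ (Tl 1 1 d e) P Q := by
  have hT : ∀ a, a ∈ Tl 1 1 d e ↔ a = 0 ∨ a = e := by
    intro a
    simp only [Tl, Set.mem_setOf_eq]
    constructor
    · rintro (⟨i, h1, h2, rfl⟩ | ⟨i, h1, h2, rfl⟩)
      · left
        have : i = 0 := by omega
        rw [this]; ring
      · right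
        have : i = 0 := by omega
        rw [this]; ring
    · rintro (rfl | rfl)
      · exact Or.inl ⟨0, by norm_num, by norm_num, by ring⟩
      · exact Or.inr ⟨0, by norm_num, by norm_num, by ring⟩
  have hstep : ∀ n : ℤ, ((n - e) / |e|) % 2 = 0 ↔ ¬ (n / |e|) % 2 = 0 := by
    intro n
    have hpos : 0 < |e| := abs_pos.2 h0
    rcases lt_or_gt_of_ne h0 with h1 | h1
    · have : (n - e) / |e| = n / |e| + 1 := by
        rw [show n - e = n + 1 * |e| by rw [abs_of_neg h1]; ring,
          Int.add_mul_ediv_right _ _ hpos.ne']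
      rw [this]; omega
    · have : (n - e) / |e| = n / |e| - 1 := by
        rw [show n - e = n + (-1) * |e| by rw [abs_of_pos h1]; ring,
          Int.add_mul_ediv_right _ _ hpos.ne']; ring
      rw [this]; omega
  refine ⟨fun n => (n / |e|) % 2 = 0, fun _ => False, fun n => ?_⟩
  by_cases hn : (n / |e|) % 2 = 0
  · refine ⟨(true, 0), ⟨(hT 0).2 (Or.inl rfl), by simpa using hn⟩, ?_⟩
    rintro ⟨σ, a⟩ ⟨ha, hc⟩
    simp only at ha hc
    cases σ
    · simp at hc
    · simp only [if_true] at hc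
      rcases (hT a).1 ha with rfl | rfl
      · rfl
      · exact absurd hn ((hstep n).1 hc)
  · refine ⟨(true, e), ⟨(hT e).2 (Or.inr rfl), by simpa using (hstep n).2 hn⟩, ?_⟩
    rintro ⟨σ, a⟩ ⟨ha, hc⟩
    simp only at ha hc
    cases σ
    · simp at hc
    · simp only [if_true] at hc
      rcases (hT a).1 ha with rfl | rfl
      · rw [sub_zero] at hc; exact absurd hc hn
      · rfl

theorem classify_eq (hr : 1 ≤ r) (hd0 : 0 < d) (hde : IsCoprime d e)
    (he : ∀ i i', 0 ≤ i → i < r → 0 ≤ i' → i' < r → d * i ≠ e + d * i') :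
    (∃ P Q, PQ (Tl r r d e) P Q) ↔ (2 ∣ d ∨ r ∣ e) := by
  have hr0 : 0 < r := by omega
  constructor
  · intro h
    rcases Int.emod_two_eq_zero_or_one d with h2 | h2
    · exact Or.inl (Int.dvd_of_emod_eq_zero h2)
    · right
      obtain ⟨it, T, -, h1, -⟩ := exists_rows hd0 hr0.le hr0.le he h
      obtain ⟨b, hb⟩ := h1.resid hr0 hr0 (dvd_refl r) (h1.mixed_eq hr0 h2 hd0)
      exact h1.dvd_e_of_resid hb
  · rintro (h | ⟨e', rfl⟩)
    · exact TP.suff_even hr0 le_rfl hd0 hde (Int.emod_eq_zero_of_dvd h)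
    · have h0 : e' ≠ 0 := by
        intro h0
        refine he 0 0 le_rfl (by omega) le_rfl (by omega) ?_
        rw [h0]; ring
      obtain ⟨it, T, -, h3, -⟩ := exists_rows (p := 1) (r := 1) (d := d) (e := e') hd0 (by norm_num)
        (by norm_num) (fun i i' a b c c' => by
          have h5 : i = 0 := by omega
          have h6 : i' = 0 := by omega
          subst h5
          subst h6
          simpa using h0.symm) (one_one h0)
      exact pq_of_rows hd0 hde (h3.up (p := r) (r := r) (by ring) hr0)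

end MPae024f.TP
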